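import Pool.Agent.H345R2.A2.Four

set_option autoImplicit false

/-! Pair sums and test functions (helper527). -/

open Filter Topology MeasureTheory

namespace Run7.h527.PC

open H370 (zset mult good_zeta zset_finite')
open H370.A2 (RR PP)

/-- the pair sum of the zeros in `(A, B]` -/
noncomputable def S (f : ℝ → ℝ) (A B l : ℝ) : ℝ :=
  ∑ᶠ s ∈ zset riemannZeta A B, ∑ᶠ s' ∈ zset riemannZeta A B,
    (mult riemannZeta s : ℝ) * (mult riemannZeta s' : ℝ) * f ((s.im - s'.im) * l / (2 * Real.pi))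

/-- the main term -/
noncomputable def M (r : ℝ → ℝ) : ℝ :=
  r 0 + ∫ x, r x * (1 - (Real.sin (Real.pi * x) / (Real.pi * x)) ^ 2)

/-- test functions of bandwidth `μ` -/
def Test (μ : ℝ) (r : ℝ → ℝ) : Prop :=
  ∃ ψ : ℝ → ℝ, (∃ K : ℝ, ∀ x y, |ψ x - ψ y| ≤ K * |x - y|) ∧ (∀ x, μ ≤ |x| → ψ x = 0) ∧
    (∀ x, r x = ∫ α in (-μ)..μ, ψ α * Real.cos (2 * Real.pi * α * x)) ∧
    ∃ C : ℝ, ∀ x, |r x| * x ^ 2 ≤ C

lemma S_eq (f : ℝ → ℝ) {A : ℝ} (B l : ℝ) (hA : 0 < A) :
    S f A B l = ∑ s ∈ (zset_finite' good_zeta A B hA).toFinset, ∑ s' ∈ (zset_finite' good_zeta A B hA).toFinset,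
      (mult riemannZeta s : ℝ) * (mult riemannZeta s' : ℝ) * f ((s.im - s'.im) * l / (2 * Real.pi)) := by
  unfold S
  rw [finsum_mem_eq_finite_toFinset_sum _ (zset_finite' good_zeta A B hA)]
  exact Finset.sum_congr rfl fun s _ => finsum_mem_eq_finite_toFinset_sum _ (zset_finite' good_zeta A B hA)

lemma S_le {f g : ℝ → ℝ} (h : ∀ x, f x ≤ g x) {A : ℝ} (B l : ℝ) (hA : 0 < A) : S f A B l ≤ S g A B l := by
  rw [S_eq f B l hA, S_eq g B l hA]
  exact Finset.sum_le_sum fun s _ => Finset.sum_le_sum fun s' _ => mul_le_mul_of_nonneg_left (h _) (by positivity)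

lemma S_nonneg {f : ℝ → ℝ} (h : ∀ x, 0 ≤ f x) {A : ℝ} (B l : ℝ) (hA : 0 < A) : 0 ≤ S f A B l := by
  rw [S_eq f B l hA]
  exact Finset.sum_nonneg fun s _ => Finset.sum_nonneg fun s' _ => mul_nonneg (by positivity) (h _)

lemma S_lin (f g : ℝ → ℝ) (c : ℝ) {A : ℝ} (B l : ℝ) (hA : 0 < A) :
    S (fun x => f x + c * g x) A B l = S f A B l + c * S g A B l := by
  rw [S_eq _ B l hA, S_eq f B l hA, S_eq g B l hA, Finset.mul_sum, ← Finset.sum_add_distrib]
  refine Finset.sum_congr rfl fun s _ => ?_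
  rw [Finset.mul_sum, ← Finset.sum_add_distrib]
  refine Finset.sum_congr rfl fun s' _ => ?_
  ring

lemma S_mono {f : ℝ → ℝ} (h : ∀ x, 0 ≤ f x) {A A' B B' : ℝ} (l : ℝ) (hA' : 0 < A') (h1 : A' ≤ A) (h2 : B ≤ B') :
    S f A B l ≤ S f A' B' l := by
  have hA : 0 < A := hA'.trans_le h1
  rw [S_eq f B l hA, S_eq f B' l hA']
  have hsub : (zset_finite' good_zeta A B hA).toFinset ⊆ (zset_finite' good_zeta A' B' hA').toFinset := by
    intro s hs
    rw [Set.Finite.mem_toFinset] at hs ⊢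
    obtain ⟨k1, k2, k3, k4, k5⟩ := hs
    exact ⟨k1, k2, h1.trans_lt k3, k4.trans h2, k5⟩
  calc ∑ s ∈ (zset_finite' good_zeta A B hA).toFinset, ∑ s' ∈ (zset_finite' good_zeta A B hA).toFinset,
        (mult riemannZeta s : ℝ) * (mult riemannZeta s' : ℝ) * f ((s.im - s'.im) * l / (2 * Real.pi))
      ≤ ∑ s ∈ (zset_finite' good_zeta A B hA).toFinset, ∑ s' ∈ (zset_finite' good_zeta A' B' hA').toFinset,
        (mult riemannZeta s : ℝ) * (mult riemannZeta s' : ℝ) * f ((s.im - s'.im) * l / (2 * Real.pi)) := by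
        exact Finset.sum_le_sum fun s _ => Finset.sum_le_sum_of_subset_of_nonneg hsub fun s' _ _ =>
          mul_nonneg (by positivity) (h _)
    _ ≤ _ := by
        exact Finset.sum_le_sum_of_subset_of_nonneg hsub fun s _ _ => Finset.sum_nonneg fun s' _ =>
          mul_nonneg (by positivity) (h _)

lemma S_scale (f : ℝ → ℝ) (ρ A B l : ℝ) : S (fun x => f (ρ * x)) A B l = S f A B (ρ * l) := by
  unfold S
  refine finsum_mem_congr rfl fun s _ => finsum_mem_congr rfl fun s' _ => ?_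
  have e : ρ * ((s.im - s'.im) * l / (2 * Real.pi)) = (s.im - s'.im) * (ρ * l) / (2 * Real.pi) := by ring
  show _ * f (ρ * ((s.im - s'.im) * l / (2 * Real.pi))) = _
  rw [e]

/-- continuity and decay -/
def Dec (f : ℝ → ℝ) : Prop := Continuous f ∧ ∃ C : ℝ, ∀ x, |f x| * (1 + x ^ 2) ≤ C

lemma Dec.integrable {f : ℝ → ℝ} (h : Dec f) : Integrable f := by
  obtain ⟨h1, C, h2⟩ := h
  refine (integrable_inv_one_add_sq.const_mul C).mono' h1.aestronglyMeasurable
    (Filter.Eventually.of_forall fun x => ?_)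
  rw [Real.norm_eq_abs, ← div_eq_mul_inv, le_div_iff₀ (by positivity)]
  exact h2 x

lemma sinc_bound (x : ℝ) : 0 ≤ 1 - (Real.sin (Real.pi * x) / (Real.pi * x)) ^ 2 ∧
    1 - (Real.sin (Real.pi * x) / (Real.pi * x)) ^ 2 ≤ 1 := by
  have : |Real.sin (Real.pi * x) / (Real.pi * x)| ≤ 1 := by
    rw [abs_div]
    exact div_le_one_of_le₀ Real.abs_sin_le_abs (abs_nonneg _)
  have h2 : (Real.sin (Real.pi * x) / (Real.pi * x)) ^ 2 ≤ 1 := by
    rw [← sq_abs]
    exact pow_le_one₀ (abs_nonneg _) this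
  exact ⟨by linarith, by linarith [sq_nonneg (Real.sin (Real.pi * x) / (Real.pi * x))]⟩

lemma Dec.int2 {f : ℝ → ℝ} (h : Dec f) :
    Integrable fun x => f x * (1 - (Real.sin (Real.pi * x) / (Real.pi * x)) ^ 2) := by
  refine h.integrable.norm.mono' ?_ (Filter.Eventually.of_forall fun x => ?_)
  · apply h.1.aestronglyMeasurable.mul
    apply Measurable.aestronglyMeasurable
    fun_prop
  · rw [norm_mul, Real.norm_eq_abs (1 - _), abs_of_nonneg (sinc_bound x).1]
    exact mul_le_of_le_one_right (norm_nonneg _) (sinc_bound x).2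

lemma M_lin {f g : ℝ → ℝ} (hf : Dec f) (hg : Dec g) (c : ℝ) : M (fun x => f x + c * g x) = M f + c * M g := by
  unfold M
  have e : ∀ x : ℝ, (f x + c * g x) * (1 - (Real.sin (Real.pi * x) / (Real.pi * x)) ^ 2) =
      f x * (1 - (Real.sin (Real.pi * x) / (Real.pi * x)) ^ 2) +
      c * (g x * (1 - (Real.sin (Real.pi * x) / (Real.pi * x)) ^ 2)) := fun x => by ring
  simp_rw [e]
  rw [integral_add hf.int2 (hg.int2.const_mul c), integral_const_mul]
  ring

lemma M_le {f g : ℝ → ℝ} (hf : Dec f) (hg : Dec g) (h : ∀ x, f x ≤ g x) : M f ≤ M g := by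
  unfold M
  apply add_le_add (h 0)
  exact integral_mono hf.int2 hg.int2 fun x => mul_le_mul_of_nonneg_right (h x) (sinc_bound x).1

lemma Dec.lin {f g : ℝ → ℝ} (hf : Dec f) (hg : Dec g) (c : ℝ) : Dec (fun x => f x + c * g x) := by
  obtain ⟨f1, C, f2⟩ := hf
  obtain ⟨g1, D, g2⟩ := hg
  refine ⟨f1.add (g1.const_mul c), C + |c| * D, fun x => ?_⟩
  calc |f x + c * g x| * (1 + x ^ 2) ≤ (|f x| + |c| * |g x|) * (1 + x ^ 2) := by
        apply mul_le_mul_of_nonneg_right _ (by positivity)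
        rw [← abs_mul]
        exact abs_add_le _ _
    _ = |f x| * (1 + x ^ 2) + |c| * (|g x| * (1 + x ^ 2)) := by ring
    _ ≤ C + |c| * D := add_le_add (f2 x) (mul_le_mul_of_nonneg_left (g2 x) (abs_nonneg _))

lemma Dec.zero : Dec (fun _ => 0) := ⟨continuous_const, 0, fun x => by simp⟩

lemma M_zero : M (fun _ => 0) = 0 := by
  unfold M
  simp

lemma M_nonneg {f : ℝ → ℝ} (hf : Dec f) (h : ∀ x, 0 ≤ f x) : 0 ≤ M f := by
  rw [← M_zero]
  exact M_le Dec.zero hf h

lemma lip_cont {ψ : ℝ → ℝ} {K : ℝ} (hK : ∀ x y, |ψ x - ψ y| ≤ K * |x - y|) : Continuous ψ := by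
  have hK0 : 0 ≤ K := by
    have h1 := hK 1 0
    have h2 := abs_nonneg (ψ 1 - ψ 0)
    simp at h1
    linarith
  have : LipschitzWith K.toNNReal ψ := by
    refine LipschitzWith.of_dist_le_mul fun x y => ?_
    rw [Real.dist_eq, Real.dist_eq, Real.coe_toNNReal _ hK0]
    exact hK x y
  exact this.continuous

lemma Test.dec {μ : ℝ} {r : ℝ → ℝ} (h : Test μ r) : Dec r := by
  obtain ⟨ψ, ⟨K, hK⟩, hz, hr, C, hC⟩ := h
  have hrr : r = RR ψ μ := funext hr
  subst hrr
  have hψc := lip_cont hK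
  refine ⟨H370.A2.RR_cont hψc, (∫ α, |H370.A2.evp ψ α|) + C, fun x => ?_⟩
  have h1 := H370.A2.RR_bound hψc hz x
  have h2 := hC x
  linarith

lemma Test.lin {μ : ℝ} {r s : ℝ → ℝ} (h : Test μ r) (h' : Test μ s) (c : ℝ) : Test μ (fun x => r x + c * s x) := by
  obtain ⟨C', hC'⟩ := (h.dec.lin h'.dec c).2
  obtain ⟨ψ, ⟨K, hK⟩, hz, hr, C, hC⟩ := h
  obtain ⟨φ, ⟨L, hL⟩, hw, hs, D, hD⟩ := h'
  have hψc := lip_cont hK
  have hφc := lip_cont hL
  refine ⟨fun x => ψ x + c * φ x, ⟨K + |c| * L, fun x y => ?_⟩, fun x hx => ?_, fun x => ?_, C', fun x => ?_⟩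
  · calc |ψ x + c * φ x - (ψ y + c * φ y)| = |(ψ x - ψ y) + c * (φ x - φ y)| := by congr 1; ring
      _ ≤ |ψ x - ψ y| + |c * (φ x - φ y)| := abs_add_le _ _
      _ = |ψ x - ψ y| + |c| * |φ x - φ y| := by rw [abs_mul]
      _ ≤ K * |x - y| + |c| * (L * |x - y|) := add_le_add (hK x y) (mul_le_mul_of_nonneg_left (hL x y) (abs_nonneg _))
      _ = _ := by ring
  · simp only [hz x hx, hw x hx, mul_zero, add_zero]
  · show r x + c * s x = ∫ α in (-μ)..μ, (ψ α + c * φ α) * Real.cos (2 * Real.pi * α * x)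
    rw [hr x, hs x, ← intervalIntegral.integral_const_mul, ← intervalIntegral.integral_add]
    · refine intervalIntegral.integral_congr fun α _ => ?_
      show ψ α * Real.cos (2 * Real.pi * α * x) + c * (φ α * Real.cos (2 * Real.pi * α * x)) =
        (ψ α + c * φ α) * Real.cos (2 * Real.pi * α * x)
      ring
    · exact (hψc.mul (by fun_prop)).intervalIntegrable _ _
    · exact ((hφc.mul (by fun_prop)).const_mul c).intervalIntegrable _ _
  · refine le_trans (mul_le_mul_of_nonneg_left ?_ (abs_nonneg _)) (hC' x)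
    linarith

lemma Test.ext {μ ν : ℝ} {r : ℝ → ℝ} (h : Test μ r) (hμν : μ ≤ ν) : Test ν r := by
  obtain ⟨ψ, ⟨K, hK⟩, hz, hr, C, hC⟩ := h
  have hψc := lip_cont hK
  refine ⟨ψ, ⟨K, hK⟩, fun x hx => hz x (hμν.trans hx), fun x => ?_, C, hC⟩
  rw [hr x]
  have e : ∀ ρ : ℝ, μ ≤ ρ → ∫ α in (-ρ)..ρ, ψ α * Real.cos (2 * Real.pi * α * x) =
      ∫ α, ψ α * Real.cos (2 * Real.pi * α * x) := by
    intro ρ hρ
    apply intervalIntegral.integral_eq_integral_of_support_subset
    intro α hα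
    by_contra h
    apply hα
    have : μ ≤ |α| := by
      by_contra h2
      push Not at h2
      obtain ⟨h3, h4⟩ := abs_lt.1 h2
      exact h ⟨by linarith, by linarith⟩
    show ψ α * Real.cos (2 * Real.pi * α * x) = 0
    rw [hz α this, zero_mul]
  rw [e μ le_rfl, e ν hμν]

/-- dilations -/
lemma Test.dil {μ X : ℝ} {r : ℝ → ℝ} (h : Test μ r) (hX : 0 < X) : Test (μ / X) (fun x => r (x / X)) := by
  obtain ⟨ψ, ⟨K, hK⟩, hz, hr, C, hC⟩ := h
  refine ⟨fun α => X * ψ (X * α), ⟨X * (K * X), fun x y => ?_⟩, fun x hx => ?_, fun x => ?_, X ^ 2 * C, fun x => ?_⟩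
  · have e : X * ψ (X * x) - X * ψ (X * y) = X * (ψ (X * x) - ψ (X * y)) := by ring
    rw [e, abs_mul, abs_of_pos hX, mul_assoc]
    apply mul_le_mul_of_nonneg_left _ hX.le
    refine (hK _ _).trans (le_of_eq ?_)
    rw [← mul_sub, abs_mul, abs_of_pos hX]
    ring
  · rw [div_le_iff₀ hX] at hx
    show X * ψ (X * x) = 0
    rw [hz, mul_zero]
    rw [abs_mul, abs_of_pos hX]
    linarith
  · show r (x / X) = _
    rw [hr]
    have h1 := intervalIntegral.integral_comp_mul_left (a := -(μ / X)) (b := μ / X)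
      (fun α => ψ α * Real.cos (2 * Real.pi * α * (x / X))) hX.ne'
    have e1 : X * -(μ / X) = -μ := by field_simp
    have e2 : X * (μ / X) = μ := by field_simp
    rw [e1, e2, smul_eq_mul] at h1
    have h2 : ∫ α in (-μ)..μ, ψ α * Real.cos (2 * Real.pi * α * (x / X)) =
        X * ∫ α in (-(μ / X))..(μ / X), ψ (X * α) * Real.cos (2 * Real.pi * (X * α) * (x / X)) := by
      rw [h1, ← mul_assoc, mul_inv_cancel₀ hX.ne', one_mul]
    rw [h2, ← intervalIntegral.integral_const_mul]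
    refine intervalIntegral.integral_congr fun α _ => ?_
    have e3 : 2 * Real.pi * (X * α) * (x / X) = 2 * Real.pi * α * x := by field_simp
    simp only [e3]
    ring
  · have h1 := hC (x / X)
    have h2 := mul_le_mul_of_nonneg_left h1 (show 0 ≤ X ^ 2 by positivity)
    have e : X ^ 2 * (|r (x / X)| * (x / X) ^ 2) = |r (x / X)| * x ^ 2 := by
      field_simp
    linarith

/-- test functions are Lipschitz -/
lemma Test.lip {μ : ℝ} {r : ℝ → ℝ} (h : Test μ r) (hμ : 0 ≤ μ) : ∃ L : ℝ, 0 ≤ L ∧ ∀ x y, |r x - r y| ≤ L * |x - y| := by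
  obtain ⟨ψ, ⟨K, hK⟩, hz, hr, C, hC⟩ := h
  have hψc := lip_cont hK
  refine ⟨∫ α in (-μ)..μ, |ψ α| * (2 * Real.pi * |α|), ?_, fun x y => ?_⟩
  · apply intervalIntegral.integral_nonneg (by linarith)
    intro u _
    have := Real.pi_pos
    positivity
  · rw [hr x, hr y, ← intervalIntegral.integral_sub, ← intervalIntegral.integral_mul_const]
    · refine (intervalIntegral.abs_integral_le_integral_abs (by linarith)).trans ?_
      apply intervalIntegral.integral_mono_on (by linarith)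
      · apply Continuous.intervalIntegrable
        fun_prop
      · apply Continuous.intervalIntegrable
        fun_prop
      · intro α _
        have e : ψ α * Real.cos (2 * Real.pi * α * x) - ψ α * Real.cos (2 * Real.pi * α * y) =
            ψ α * (Real.cos (2 * Real.pi * α * x) - Real.cos (2 * Real.pi * α * y)) := by ring
        rw [e, abs_mul, mul_assoc (|ψ α|)]
        apply mul_le_mul_of_nonneg_left _ (abs_nonneg _)
        have h1 : |Real.cos (2 * Real.pi * α * x) - Real.cos (2 * Real.pi * α * y)| ≤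
            |2 * Real.pi * α * x - 2 * Real.pi * α * y| := by
          have := Real.abs_cos_sub_cos_le (2 * Real.pi * α * x) (2 * Real.pi * α * y)
          exact this
        refine h1.trans (le_of_eq ?_)
        have e2 : 2 * Real.pi * α * x - 2 * Real.pi * α * y = (2 * Real.pi) * (α * (x - y)) := by ring
        rw [e2, abs_mul (2 * Real.pi), abs_mul α, abs_of_pos (by positivity : 0 < 2 * Real.pi)]
        ring
    · apply Continuous.intervalIntegrable
      fun_prop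
    · apply Continuous.intervalIntegrable
      fun_prop

end Run7.h527.PC
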