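import Pool.Agent.Run7.h527.PC.Ker

set_option autoImplicit false

/-! All lengths and all scales at once (helper527). -/

open Filter Topology MeasureTheory

namespace Run7.h527.PC

lemma S_abs {f R : ℝ → ℝ} (h : ∀ x, |f x| ≤ R x) {A : ℝ} (B l : ℝ) (hA : 0 < A) : |S f A B l| ≤ S R A B l := by
  rw [abs_le]
  constructor
  · have h1 := S_nonneg (f := fun x => f x + 1 * R x) (fun x => by
      have := (abs_le.1 (h x)).1
      linarith) B l hA
    rw [S_lin f R 1 B l hA] at h1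
    linarith
  · exact S_le (fun x => (abs_le.1 (h x)).2) B l hA

/-- a comparison of two functions at two scales -/
lemma S_close {r s K K' : ℝ → ℝ} {ρ a b : ℝ} (h : ∀ x, |r (ρ * x) - s x| ≤ a * K x + b * K' x) {A : ℝ} (B l : ℝ)
    (hA : 0 < A) : |S r A B (ρ * l) - S s A B l| ≤ a * S K A B l + b * S K' A B l := by
  have h1 := S_abs (f := fun x => r (ρ * x) + (-1) * s x) (R := fun x => a * K x + b * K' x) (fun x => by
    have := h x
    rw [neg_one_mul, ← sub_eq_add_neg]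
    exact this) B l hA
  rw [S_lin (fun x => r (ρ * x)) s (-1) B l hA, S_scale r ρ A B l, S_lin (fun x => a * K x) K' b B l hA] at h1
  have h2 : S (fun x => a * K x) A B l = a * S K A B l := by
    have h3 := S_lin (fun _ => 0) K a B l hA
    simp only [zero_add] at h3
    rw [h3]
    have h4 : S (fun _ => 0) A B l = 0 := by
      rw [S_eq _ B l hA]
      simp
    rw [h4, zero_add]
  rw [h2] at h1
  have e : S r A B (ρ * l) + -1 * S s A B l = S r A B (ρ * l) - S s A B l := by ring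
  rw [e] at h1
  exact h1

/-- the pointwise comparison -/
lemma pointwise {r s K : ℝ → ℝ} {C κ X ρ : ℝ} (hK : ∀ x, 1 / (1 + x ^ 2) ≤ K x) (hX : 1 ≤ X)
    (hC : ∀ x, |r x| * x ^ 2 ≤ C) (hC' : ∀ x, |s x| * x ^ 2 ≤ C) (hρ : 1 / 2 ≤ ρ) (hκ : 0 ≤ κ)
    (h : ∀ x, |x| ≤ X → |r (ρ * x) - s x| ≤ κ) (x : ℝ) :
    |r (ρ * x) - s x| ≤ (κ * (1 + X ^ 2)) * K x + (10 * C / X ^ 2) * K (x / X) := by
  have hC0 : 0 ≤ C := by
    have := hC 0
    simp at this
    exact this
  have hK0 : ∀ y, 0 < K y := fun y => lt_of_lt_of_le (by positivity) (hK y)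
  rcases le_or_gt |x| X with h1 | h1
  · have h2 : x ^ 2 ≤ X ^ 2 := by
      rw [← sq_abs]
      exact pow_le_pow_left₀ (abs_nonneg _) h1 2
    have h3 : κ ≤ κ * (1 + X ^ 2) * (1 / (1 + x ^ 2)) := by
      rw [mul_one_div, le_div_iff₀ (by positivity)]
      exact mul_le_mul_of_nonneg_left (by linarith) hκ
    have h4 : κ * (1 + X ^ 2) * (1 / (1 + x ^ 2)) ≤ κ * (1 + X ^ 2) * K x :=
      mul_le_mul_of_nonneg_left (hK x) (by positivity)
    have h5 : 0 ≤ (10 * C / X ^ 2) * K (x / X) := mul_nonneg (by positivity) (hK0 _).le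
    linarith [h x h1]
  · have hX0 : 0 < X := by linarith
    have hx0 : 0 < |x| := by linarith
    have hx2 : 0 < x ^ 2 := by rw [← sq_abs]; positivity
    have h2 : X ^ 2 ≤ x ^ 2 := by
      rw [← sq_abs x]
      exact pow_le_pow_left₀ (by linarith) h1.le 2
    have a1 : |r (ρ * x)| * x ^ 2 ≤ 4 * C := by
      have h3 := hC (ρ * x)
      have h4 : (ρ * x) ^ 2 = ρ ^ 2 * x ^ 2 := by ring
      rw [h4] at h3
      have h5 : 1 / 4 ≤ ρ ^ 2 := by nlinarith
      have h6 : |r (ρ * x)| * (1 / 4 * x ^ 2) ≤ |r (ρ * x)| * (ρ ^ 2 * x ^ 2) :=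
        mul_le_mul_of_nonneg_left (mul_le_mul_of_nonneg_right h5 hx2.le) (abs_nonneg _)
      linarith
    have a2 : |r (ρ * x) - s x| * x ^ 2 ≤ 5 * C := by
      have h3 : |r (ρ * x) - s x| ≤ |r (ρ * x)| + |s x| := abs_sub _ _
      calc |r (ρ * x) - s x| * x ^ 2 ≤ (|r (ρ * x)| + |s x|) * x ^ 2 := mul_le_mul_of_nonneg_right h3 hx2.le
        _ = |r (ρ * x)| * x ^ 2 + |s x| * x ^ 2 := by ring
        _ ≤ 5 * C := by linarith [hC' x]
    have a3 : X ^ 2 / (2 * x ^ 2) ≤ K (x / X) := by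
      refine le_trans ?_ (hK (x / X))
      rw [div_le_div_iff₀ (by positivity) (by positivity)]
      have e : X ^ 2 * (1 + (x / X) ^ 2) = X ^ 2 + x ^ 2 := by field_simp
      rw [e]
      linarith
    have a4 : 5 * C / x ^ 2 ≤ (10 * C / X ^ 2) * K (x / X) := by
      have h3 := mul_le_mul_of_nonneg_left a3 (show 0 ≤ 10 * C / X ^ 2 by positivity)
      have e : 10 * C / X ^ 2 * (X ^ 2 / (2 * x ^ 2)) = 5 * C / x ^ 2 := by
        field_simp
        ring
      rw [e] at h3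
      exact h3
    have a5 : |r (ρ * x) - s x| ≤ 5 * C / x ^ 2 := by
      rw [le_div_iff₀ hx2]
      exact a2
    have a6 : 0 ≤ (κ * (1 + X ^ 2)) * K x := mul_nonneg (by positivity) (hK0 _).le
    linarith

/-- the main term of a dilated function -/
lemma M_dil {μ : ℝ} {K : ℝ → ℝ} (h : Test μ K) (hK : ∀ x, 0 ≤ K x) {X : ℝ} (hX : 1 ≤ X) :
    M (fun x => K (x / X)) ≤ X * (K 0 + ∫ x, K x) := by
  have hX0 : 0 < X := by linarith
  have hd : Dec (fun x => K (x / X)) := (h.dil hX0).dec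
  have h1 : ∫ x, K (x / X) * (1 - (Real.sin (Real.pi * x) / (Real.pi * x)) ^ 2) ≤ ∫ x, K (x / X) :=
    integral_mono hd.int2 hd.integrable fun x => mul_le_of_le_one_right (hK _) (sinc_bound x).2
  have h2 : ∫ x, K (x / X) = X * ∫ x, K x := by
    have h3 := Measure.integral_comp_div K X
    rw [h3, abs_of_pos hX0, smul_eq_mul]
  unfold M
  have h4 : K (0 / X) = K 0 := by rw [zero_div]
  rw [h2] at h1
  show K (0 / X) + _ ≤ _
  rw [h4]
  have h5 : K 0 ≤ X * K 0 := by nlinarith [hK 0]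
  linarith

/-- few `t` for each `H`, for all test functions -/
theorem almost (hRH : RiemannHypothesis) {η μ ε : ℝ} (hη0 : 0 < η) (hη1 : η < 1) (hμ : 0 < μ) (hgap : 2 * μ < 1 + η)
    (hε : 0 < ε) {r : ℝ → ℝ} (hr : Test μ r) :
    ∃ δ : ℝ, 0 < δ ∧ ∃ T0 : ℝ, 10 ≤ T0 ∧ ∀ T : ℝ, T0 ≤ T → ∀ H : ℝ, T ^ η ≤ H → H ≤ T / 8 →
      volume {t : ℝ | t ∈ Set.Icc T (2 * T) ∧ ¬ (|S r t (t + H) (Real.log T) - (H * Real.log T / (2 * Real.pi)) * M r| ≤
        ε * (H * Real.log T / (2 * Real.pi)))} ≤ ENNReal.ofReal (T ^ (1 - δ)) := by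
  obtain ⟨ψ, ⟨K, hK⟩, hz, hr, C, hC⟩ := hr
  have hrr : r = H370.A2.RR ψ μ := funext hr
  subst hrr
  obtain ⟨δ, hδ, T0, hT0, h⟩ := H370.A2.almost_smooth hRH η μ ε hη0 hη1 hμ hgap hε ψ K hK hz C hC
  have hM : M (H370.A2.RR ψ μ) = ψ 0 + ∫ α in (-μ)..μ, |α| * ψ α :=
    H370.A2.main_term (lip_cont hK) hz (by linarith) hC
  refine ⟨δ, hδ, T0, hT0, fun T hT H hH1 hH2 => ?_⟩
  rw [hM]
  exact h T hT H hH1 hH2

/-- between two lengths of the grid -/
lemma grid_step {Q : ℝ → ℝ} {m c κ e H H₁ H₂ : ℝ} (hm : 0 ≤ m) (hc : 0 ≤ c) (hκ : 0 ≤ κ) (he : 0 ≤ e) (h1 : H₁ ≤ H)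
    (h2 : H ≤ H₂) (h12 : H₂ ≤ (1 + κ) * H₁) (hH₁ : 0 < H₁) (q1 : Q H₁ ≤ Q H) (q2 : Q H ≤ Q H₂)
    (b1 : |Q H₁ - H₁ * m * c| ≤ e * (H₁ * m)) (b2 : |Q H₂ - H₂ * m * c| ≤ e * (H₂ * m)) :
    |Q H - H * m * c| ≤ (κ * c + (1 + κ) * e) * (H * m) := by
  have hH : 0 < H := by linarith
  have hH2 : H₂ ≤ (1 + κ) * H := h12.trans (mul_le_mul_of_nonneg_left h1 (by linarith))
  have hmc : 0 ≤ m * c := mul_nonneg hm hc
  have hem : 0 ≤ e * m := mul_nonneg he hm
  obtain ⟨b1, -⟩ := abs_le.1 b1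
  obtain ⟨-, b2⟩ := abs_le.1 b2
  rw [abs_le]
  constructor
  · have k1 : H ≤ (1 + κ) * H₁ := h2.trans h12
    have k2 : H * (m * c) ≤ (1 + κ) * H₁ * (m * c) := mul_le_mul_of_nonneg_right k1 hmc
    have k3 : κ * H₁ * (m * c) ≤ κ * H * (m * c) :=
      mul_le_mul_of_nonneg_right (mul_le_mul_of_nonneg_left h1 hκ) hmc
    have k4 : H₁ * (e * m) ≤ H * (e * m) := mul_le_mul_of_nonneg_right h1 hem
    have k5 : 0 ≤ κ * (H * (e * m)) := by positivity
    nlinarith
  · have k2 : H₂ * (m * c) ≤ (1 + κ) * H * (m * c) := mul_le_mul_of_nonneg_right hH2 hmc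
    have k4 : H₂ * (e * m) ≤ (1 + κ) * H * (e * m) := mul_le_mul_of_nonneg_right hH2 hem
    nlinarith

/-- **All lengths at once**, for nonnegative test functions. -/
theorem all_H (hRH : RiemannHypothesis) {η μ ε : ℝ} (hη0 : 0 < η) (hη1 : η < 1) (hμ : 0 < μ) (hgap : 2 * μ < 1 + η)
    (hε : 0 < ε) {r : ℝ → ℝ} (hr : Test μ r) (hr0 : ∀ x, 0 ≤ r x) :
    ∃ δ : ℝ, 0 < δ ∧ ∃ T0 : ℝ, 10 ≤ T0 ∧ ∀ T : ℝ, T0 ≤ T →
      volume {t : ℝ | t ∈ Set.Icc T (2 * T) ∧ ¬ ∀ H : ℝ, T ^ η ≤ H → H ≤ T / 16 →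
        |S r t (t + H) (Real.log T) - (H * Real.log T / (2 * Real.pi)) * M r| ≤
          ε * (H * Real.log T / (2 * Real.pi))} ≤ ENNReal.ofReal (T ^ (1 - δ)) := by
  obtain ⟨x, hx⟩ : ∃ x : ℝ, x = max (η / 2) (μ - 1 / 2 + η / 2) := ⟨_, rfl⟩
  have hx0 : 0 < x := by rw [hx]; exact lt_of_lt_of_le (by linarith) (le_max_left _ _)
  have hxη : x < η := by rw [hx]; exact max_lt (by linarith) (by linarith)
  have hxgap : 2 * μ < 1 + x := by
    have : μ - 1 / 2 + η / 2 ≤ x := by rw [hx]; exact le_max_right _ _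
    linarith
  have hc0 : 0 ≤ M r := M_nonneg hr.dec hr0
  obtain ⟨κ, hκ⟩ : ∃ κ : ℝ, κ = min 1 (ε / (4 * (M r + 1))) := ⟨_, rfl⟩
  have hκ0 : 0 < κ := by rw [hκ]; exact lt_min one_pos (by positivity)
  have hκ1 : κ ≤ 1 := by rw [hκ]; exact min_le_left _ _
  have hκ2 : κ * M r ≤ ε / 4 := by
    have h1 : κ ≤ ε / (4 * (M r + 1)) := by rw [hκ]; exact min_le_right _ _
    calc κ * M r ≤ ε / (4 * (M r + 1)) * (M r + 1) := by
          apply mul_le_mul h1 (by linarith) hc0 (by positivity)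
      _ = ε / 4 := by field_simp
  obtain ⟨δ, hδ, T1, hT1, h1⟩ := almost hRH hx0 (by linarith) hμ hxgap (show 0 < ε / 4 by positivity) hr
  obtain ⟨b, hb⟩ : ∃ b : ℝ, b = 1 + κ := ⟨_, rfl⟩
  have hb1 : 1 < b := by rw [hb]; linarith
  have hb2 : b ≤ 2 := by rw [hb]; linarith
  have hlb : 0 < Real.log b := Real.log_pos hb1
  have ev1 : ∀ᶠ T : ℝ in atTop, (1 / Real.log b + 2) * Real.log T ^ 1 ≤ T ^ (δ / 2) := by
    have h1 := isLittleO_log_rpow_rpow_atTop ((1 : ℕ) : ℝ) (show 0 < δ / 2 by positivity)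
    filter_upwards [h1.bound (show (0 : ℝ) < 1 / (1 / Real.log b + 2) by positivity), eventually_ge_atTop (1 : ℝ)]
      with T h2 h3
    rw [Real.rpow_natCast, Real.norm_of_nonneg (pow_nonneg (Real.log_nonneg h3) _),
      Real.norm_of_nonneg (by positivity), one_div, inv_mul_eq_div, le_div_iff₀ (by positivity)] at h2
    linarith
  have ev2 : ∀ᶠ T : ℝ in atTop, b * T ^ x ≤ T ^ η := by
    filter_upwards [(tendsto_rpow_atTop (show 0 < η - x by linarith)).eventually (eventually_ge_atTop b),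
      eventually_gt_atTop (0 : ℝ)] with T h3 h4
    calc b * T ^ x ≤ T ^ (η - x) * T ^ x := mul_le_mul_of_nonneg_right h3 (by positivity)
      _ = T ^ η := by rw [← Real.rpow_add h4]; congr 1; ring
  obtain ⟨T₀, hT₀⟩ := eventually_atTop.1 (ev1.and (ev2.and ((eventually_ge_atTop T1).and (eventually_ge_atTop (10 : ℝ)))))
  refine ⟨δ / 2, by positivity, max T₀ 10, le_max_right _ _, fun T hT => ?_⟩
  obtain ⟨g1, g2, g4, g6⟩ := hT₀ T ((le_max_left _ _).trans hT)
  rw [pow_one] at g1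
  have hT0 : 0 < T := by linarith
  have hlT : 1 ≤ Real.log T := by
    rw [Real.le_log_iff_exp_le hT0]
    have := Real.exp_one_lt_d9
    linarith
  obtain ⟨N, hN⟩ : ∃ N : ℕ, N = ⌊Real.log T / Real.log b⌋₊ := ⟨_, rfl⟩
  classical
  obtain ⟨I, hI⟩ : ∃ I : Finset ℕ, I = (Finset.range (N + 2)).filter (fun i => T ^ x ≤ b ^ i ∧ b ^ i ≤ T / 8) := ⟨_, rfl⟩
  have hIc : (I.card : ℝ) ≤ (1 / Real.log b + 2) * Real.log T := by
    have a1 : I.card ≤ N + 2 := by
      rw [hI]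
      exact (Finset.card_filter_le _ _).trans (by rw [Finset.card_range])
    have a2 : (I.card : ℝ) ≤ N + 2 := by exact_mod_cast a1
    have a3 : (N : ℝ) ≤ Real.log T / Real.log b := by
      rw [hN]
      exact Nat.floor_le (by positivity)
    calc (I.card : ℝ) ≤ Real.log T / Real.log b + 2 := by linarith
      _ ≤ (1 / Real.log b + 2) * Real.log T := by
          rw [add_mul, one_div_mul_eq_div]
          linarith
  have hsub : {t : ℝ | t ∈ Set.Icc T (2 * T) ∧ ¬ ∀ H : ℝ, T ^ η ≤ H → H ≤ T / 16 →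
        |S r t (t + H) (Real.log T) - (H * Real.log T / (2 * Real.pi)) * M r| ≤
          ε * (H * Real.log T / (2 * Real.pi))} ⊆ ⋃ i ∈ I, {t : ℝ | t ∈ Set.Icc T (2 * T) ∧
        ¬ (|S r t (t + b ^ i) (Real.log T) - (b ^ i * Real.log T / (2 * Real.pi)) * M r| ≤
          ε / 4 * (b ^ i * Real.log T / (2 * Real.pi)))} := by
    rintro t ⟨ht, hbad⟩
    have ht0 : 0 < t := lt_of_lt_of_le hT0 ht.1
    by_contra hcon
    apply hbad
    intro H hH1 hH2
    have hgood : ∀ i ∈ I, |S r t (t + b ^ i) (Real.log T) - (b ^ i * Real.log T / (2 * Real.pi)) * M r| ≤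
          ε / 4 * (b ^ i * Real.log T / (2 * Real.pi)) := by
      intro i hi
      by_contra h3
      apply hcon
      rw [Set.mem_iUnion₂]
      exact ⟨i, hi, ht, h3⟩
    have hTx : 1 ≤ T ^ x := Real.one_le_rpow (by linarith) hx0.le
    have hH0 : 1 ≤ H := by nlinarith
    obtain ⟨i, hi1, hi2⟩ := exists_nat_pow_near hH0 hb1
    have hi3 : T ^ x ≤ b ^ i := by
      have : b * T ^ x < b * b ^ i := by
        calc b * T ^ x ≤ H := g2.trans hH1
          _ < b ^ (i + 1) := hi2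
          _ = b * b ^ i := by rw [pow_succ]; ring
      exact le_of_lt (lt_of_mul_lt_mul_left this (by linarith))
    have hi4 : b ^ i ≤ T / 8 := by linarith
    have hbi0 : 0 < b ^ i := by positivity
    have hi5 : b ^ (i + 1) ≤ T / 8 := by
      rw [pow_succ]
      nlinarith
    have hi6 : i < N + 1 := by
      rw [hN, Nat.lt_add_one_iff]
      apply Nat.le_floor
      rw [le_div_iff₀ hlb, ← Real.log_pow]
      exact Real.log_le_log (by positivity) (by linarith)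
    have m1 : i ∈ I := by
      rw [hI, Finset.mem_filter, Finset.mem_range]
      exact ⟨by omega, hi3, hi4⟩
    have m2 : i + 1 ∈ I := by
      rw [hI, Finset.mem_filter, Finset.mem_range]
      refine ⟨by omega, hi3.trans ?_, hi5⟩
      exact pow_le_pow_right₀ hb1.le (by omega)
    have e1 : ∀ y : ℝ, y * Real.log T / (2 * Real.pi) = y * (Real.log T / (2 * Real.pi)) := fun y => by ring
    have b1 := hgood i m1
    have b2 := hgood (i + 1) m2
    rw [e1] at b1 b2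
    have hm : 0 ≤ Real.log T / (2 * Real.pi) := by
      have := Real.pi_pos
      positivity
    have key := grid_step (Q := fun y => S r t (t + y) (Real.log T)) (κ := κ) (e := ε / 4) hm hc0 hκ0.le (by positivity)
      hi1 hi2.le (by rw [pow_succ, ← hb]; linarith) hbi0
      (S_mono hr0 _ ht0 le_rfl (by linarith)) (S_mono hr0 _ ht0 le_rfl (by linarith)) b1 b2
    rw [e1]
    refine key.trans (mul_le_mul_of_nonneg_right ?_ (mul_nonneg (by linarith) hm))
    nlinarith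
  refine (measure_mono hsub).trans ((measure_biUnion_finset_le _ _).trans ?_)
  calc ∑ i ∈ I, volume {t : ℝ | t ∈ Set.Icc T (2 * T) ∧
        ¬ (|S r t (t + b ^ i) (Real.log T) - (b ^ i * Real.log T / (2 * Real.pi)) * M r| ≤
          ε / 4 * (b ^ i * Real.log T / (2 * Real.pi)))}
      ≤ ∑ i ∈ I, ENNReal.ofReal (T ^ (1 - δ)) := by
        refine Finset.sum_le_sum fun i hi => ?_
        rw [hI, Finset.mem_filter] at hi
        exact h1 T g4 (b ^ i) hi.2.1 hi.2.2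
    _ = ENNReal.ofReal (I.card * T ^ (1 - δ)) := by
        rw [Finset.sum_const, nsmul_eq_mul, ENNReal.ofReal_mul (Nat.cast_nonneg _), ENNReal.ofReal_natCast]
    _ ≤ ENNReal.ofReal (T ^ (1 - δ / 2)) := by
        apply ENNReal.ofReal_le_ofReal
        calc (I.card : ℝ) * T ^ (1 - δ) ≤ T ^ (δ / 2) * T ^ (1 - δ) :=
              mul_le_mul_of_nonneg_right (hIc.trans g1) (by positivity)
          _ = T ^ (1 - δ / 2) := by
              rw [← Real.rpow_add hT0]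
              congr 1
              ring

end Run7.h527.PC
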