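import Pool.Agent.Run7.h527.PC.B

set_option autoImplicit false

/-! All scales, and test functions without a sign condition (helper527). -/

open Filter Topology MeasureTheory

namespace Run7.h527.PC

/-- the law for the window `(t, t + H]` at the scale `l` -/
def Law (r : ℝ → ℝ) (ε t H l : ℝ) : Prop :=
  |S r t (t + H) l - (H * l / (2 * Real.pi)) * M r| ≤ ε * (H * l / (2 * Real.pi))

lemma majorant {μ : ℝ} {r K : ℝ → ℝ} (hr : Test μ r) (hK : ∀ x, 1 / (1 + x ^ 2) ≤ K x) :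
    ∃ c : ℝ, 0 ≤ c ∧ ∀ x, |r x| ≤ c * K x := by
  obtain ⟨-, C, hC⟩ := hr.dec
  have hC0 : 0 ≤ C := le_trans (by positivity) (hC 0)
  refine ⟨C, hC0, fun x => ?_⟩
  calc |r x| ≤ C * (1 / (1 + x ^ 2)) := by
        rw [mul_one_div, le_div_iff₀ (by positivity)]
        exact hC x
    _ ≤ C * K x := mul_le_mul_of_nonneg_left (hK x) hC0

/-- differences of nonnegative functions -/
lemma law_sub {r K : ℝ → ℝ} (hr : Dec r) (hK : Dec K) {c e t H l : ℝ} (hc : 0 ≤ c) (ht : 0 < t)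
    (h1 : Law (fun x => r x + c * K x) e t H l) (h2 : Law K e t H l) : Law r ((1 + c) * e) t H l := by
  unfold Law at h1 h2 ⊢
  rw [S_lin r K c _ l ht, M_lin hr hK] at h1
  obtain ⟨m, hm⟩ : ∃ m : ℝ, m = H * l / (2 * Real.pi) := ⟨_, rfl⟩
  rw [← hm] at h1 h2 ⊢
  have h3 : S r t (t + H) l - m * M r = (S r t (t + H) l + c * S K t (t + H) l - m * (M r + c * M K)) -
      c * (S K t (t + H) l - m * M K) := by ring
  rw [h3]
  refine (abs_sub _ _).trans ?_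
  rw [abs_mul, abs_of_nonneg hc]
  have h4 := mul_le_mul_of_nonneg_left h2 hc
  linarith

/-- **The comparison of two laws.** -/
lemma law_close {r s K : ℝ → ℝ} {a b ρ e t H l : ℝ} {X : ℝ}
    (hp : ∀ x, |r (ρ * x) - s x| ≤ a * K x + b * K (x / X)) (ha : 0 ≤ a) (hb : 0 ≤ b)
    (ht : 0 < t) (hm : 0 ≤ H * l / (2 * Real.pi)) (h1 : Law s e t H l) (h2 : Law K 1 t H l)
    (h3 : Law (fun x => K (x / X)) 1 t H l) {D : ℝ}
    (hD : a * (M K + 1) + b * (M (fun x => K (x / X)) + 1) + e + |ρ * M r - M s| ≤ D) :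
    |S r t (t + H) (ρ * l) - (H * (ρ * l) / (2 * Real.pi)) * M r| ≤ D * (H * l / (2 * Real.pi)) := by
  unfold Law at h1 h2 h3
  have h4 := S_close hp (t + H) l ht
  obtain ⟨m, hmd⟩ : ∃ m : ℝ, m = H * l / (2 * Real.pi) := ⟨_, rfl⟩
  have e1 : H * (ρ * l) / (2 * Real.pi) = ρ * m := by rw [hmd]; ring
  rw [e1]
  rw [← hmd] at h1 h2 h3 hm ⊢
  have h5 : S K t (t + H) l ≤ m * (M K + 1) := by
    have := (abs_le.1 h2).2
    linarith
  have h6 : S (fun x => K (x / X)) t (t + H) l ≤ m * (M (fun x => K (x / X)) + 1) := by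
    have := (abs_le.1 h3).2
    linarith
  have h7 : S r t (t + H) (ρ * l) - ρ * m * M r = (S r t (t + H) (ρ * l) - S s t (t + H) l) +
      (S s t (t + H) l - m * M s) + (-(m * (ρ * M r - M s))) := by ring
  rw [h7]
  refine (abs_add_three _ _ _).trans ?_
  rw [abs_neg, abs_mul, abs_of_nonneg hm]
  have h8 := mul_le_mul_of_nonneg_left h5 ha
  have h9 := mul_le_mul_of_nonneg_left h6 hb
  calc |S r t (t + H) (ρ * l) - S s t (t + H) l| + |S s t (t + H) l - m * M s| + m * |ρ * M r - M s|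
      ≤ (a * (m * (M K + 1)) + b * (m * (M (fun x => K (x / X)) + 1))) + e * m + m * |ρ * M r - M s| := by
        linarith
    _ = (a * (M K + 1) + b * (M (fun x => K (x / X)) + 1) + e + |ρ * M r - M s|) * m := by ring
    _ ≤ D * m := mul_le_mul_of_nonneg_right hD hm

/-- the sum of three small measures -/
lemma three_measures {B A₁ A₂ A₃ : ℝ → Set ℝ} (hsub : ∃ T0 : ℝ, ∀ T : ℝ, T0 ≤ T → B T ⊆ A₁ T ∪ A₂ T ∪ A₃ T)
    (h1 : ∃ δ : ℝ, 0 < δ ∧ ∃ T0 : ℝ, 10 ≤ T0 ∧ ∀ T : ℝ, T0 ≤ T → volume (A₁ T) ≤ ENNReal.ofReal (T ^ (1 - δ)))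
    (h2 : ∃ δ : ℝ, 0 < δ ∧ ∃ T0 : ℝ, 10 ≤ T0 ∧ ∀ T : ℝ, T0 ≤ T → volume (A₂ T) ≤ ENNReal.ofReal (T ^ (1 - δ)))
    (h3 : ∃ δ : ℝ, 0 < δ ∧ ∃ T0 : ℝ, 10 ≤ T0 ∧ ∀ T : ℝ, T0 ≤ T → volume (A₃ T) ≤ ENNReal.ofReal (T ^ (1 - δ))) :
    ∃ δ : ℝ, 0 < δ ∧ ∃ T0 : ℝ, 10 ≤ T0 ∧ ∀ T : ℝ, T0 ≤ T → volume (B T) ≤ ENNReal.ofReal (T ^ (1 - δ)) := by
  obtain ⟨T0, hT0⟩ := hsub
  obtain ⟨δ1, hδ1, T1, hT1, h1⟩ := h1
  obtain ⟨δ2, hδ2, T2, hT2, h2⟩ := h2
  obtain ⟨δ3, hδ3, T3, hT3, h3⟩ := h3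
  obtain ⟨δ, hδ⟩ : ∃ δ : ℝ, δ = min δ1 (min δ2 δ3) := ⟨_, rfl⟩
  have hδ0 : 0 < δ := by rw [hδ]; exact lt_min hδ1 (lt_min hδ2 hδ3)
  have k1 : δ ≤ δ1 := by rw [hδ]; exact min_le_left _ _
  have k2 : δ ≤ δ2 := by rw [hδ]; exact (min_le_right _ _).trans (min_le_left _ _)
  have k3 : δ ≤ δ3 := by rw [hδ]; exact (min_le_right _ _).trans (min_le_right _ _)
  obtain ⟨T4, hT4⟩ := eventually_atTop.1 ((tendsto_rpow_atTop (show 0 < δ / 2 by linarith)).eventually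
    (eventually_ge_atTop (3 : ℝ)))
  refine ⟨δ / 2, by positivity, max (max T0 T1) (max (max T2 T3) T4), ?_, fun T hT => ?_⟩
  · exact hT1.trans ((le_max_right _ _).trans (le_max_left _ _))
  have a0 : T0 ≤ T := ((le_max_left _ _).trans (le_max_left _ _)).trans hT
  have a1 : T1 ≤ T := ((le_max_right _ _).trans (le_max_left _ _)).trans hT
  have a2 : T2 ≤ T := (((le_max_left _ _).trans (le_max_left _ _)).trans (le_max_right _ _)).trans hT
  have a3 : T3 ≤ T := (((le_max_right _ _).trans (le_max_left _ _)).trans (le_max_right _ _)).trans hT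
  have a4 : T4 ≤ T := ((le_max_right _ _).trans (le_max_right _ _)).trans hT
  have hT1' : 1 ≤ T := by linarith
  have hTpos : 0 < T := by linarith
  have hb : ∀ δ' : ℝ, δ ≤ δ' → ENNReal.ofReal (T ^ (1 - δ')) ≤ ENNReal.ofReal (T ^ (1 - δ)) := fun δ' h =>
    ENNReal.ofReal_le_ofReal (Real.rpow_le_rpow_of_exponent_le hT1' (by linarith))
  calc volume (B T) ≤ volume (A₁ T ∪ A₂ T ∪ A₃ T) := measure_mono (hT0 T a0)
    _ ≤ volume (A₁ T) + volume (A₂ T) + volume (A₃ T) :=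
        (measure_union_le _ _).trans (add_le_add_left (measure_union_le _ _) _)
    _ ≤ ENNReal.ofReal (T ^ (1 - δ)) + ENNReal.ofReal (T ^ (1 - δ)) + ENNReal.ofReal (T ^ (1 - δ)) :=
        add_le_add (add_le_add ((h1 T a1).trans (hb _ k1)) ((h2 T a2).trans (hb _ k2))) ((h3 T a3).trans (hb _ k3))
    _ = ENNReal.ofReal (3 * T ^ (1 - δ)) := by
        rw [← ENNReal.ofReal_add (by positivity) (by positivity), ← ENNReal.ofReal_add (by positivity) (by positivity)]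
        congr 1
        ring
    _ ≤ ENNReal.ofReal (T ^ (1 - δ / 2)) := by
        apply ENNReal.ofReal_le_ofReal
        calc 3 * T ^ (1 - δ) ≤ T ^ (δ / 2) * T ^ (1 - δ) := mul_le_mul_of_nonneg_right (hT4 T a4) (by positivity)
          _ = T ^ (1 - δ / 2) := by
              rw [← Real.rpow_add hTpos]
              congr 1
              ring

/-- the choice of `X` -/
lemma choose_X {μ : ℝ} {K : ℝ → ℝ} (hK : Test μ K) (hK0 : ∀ x, 0 ≤ K x) {C ε : ℝ} (hC : 0 ≤ C) (hε : 0 < ε) :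
    ∃ X₀ : ℝ, 1 ≤ X₀ ∧ ∀ X : ℝ, X₀ ≤ X → 10 * C / X ^ 2 * (M (fun x => K (x / X)) + 1) ≤ ε := by
  have hI : 0 ≤ ∫ x, K x := integral_nonneg hK0
  obtain ⟨E, hE⟩ : ∃ E : ℝ, E = K 0 + ∫ x, K x := ⟨_, rfl⟩
  have hE0 : 0 ≤ E := by rw [hE]; linarith [hK0 0]
  have hX1' : 0 ≤ 10 * C * (E + 1) / ε := by positivity
  refine ⟨1 + 10 * C * (E + 1) / ε, by linarith, fun X hX => ?_⟩
  have hX1 : 1 ≤ X := by linarith
  have hX0 : 0 < X := by linarith
  have h1 := M_dil hK hK0 hX1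
  rw [← hE] at h1
  have h2 : M (fun x => K (x / X)) + 1 ≤ X * (E + 1) := by nlinarith
  calc 10 * C / X ^ 2 * (M (fun x => K (x / X)) + 1) ≤ 10 * C / X ^ 2 * (X * (E + 1)) :=
        mul_le_mul_of_nonneg_left h2 (by positivity)
    _ = 10 * C * (E + 1) / X := by field_simp
    _ ≤ ε := by
        rw [div_le_iff₀ hX0]
        have h3 := mul_le_mul_of_nonneg_left hX hε.le
        have : ε * (1 + 10 * C * (E + 1) / ε) = ε + 10 * C * (E + 1) := by field_simp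
        rw [this] at h3
        linarith

/-- **All lengths and all scales**, for all test functions. -/
theorem all_scales (hRH : RiemannHypothesis) {η μ ε : ℝ} (hη0 : 0 < η) (hη1 : η < 1) (hμ : 0 < μ) (hgap : 2 * μ < 1 + η)
    (hε : 0 < ε) {r : ℝ → ℝ} (hr : Test μ r) (c₀ : ℝ) :
    ∃ δ : ℝ, 0 < δ ∧ ∃ T0 : ℝ, 10 ≤ T0 ∧ ∀ T : ℝ, T0 ≤ T →
      volume {t : ℝ | t ∈ Set.Icc T (2 * T) ∧ ¬ ∀ H : ℝ, T ^ η ≤ H → H ≤ T / 16 → ∀ l : ℝ, |l - Real.log T| ≤ c₀ →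
        Law r ε t H l} ≤ ENNReal.ofReal (T ^ (1 - δ)) := by
  obtain ⟨K, hKt, hK⟩ := exists_kernel hμ
  have hK0 : ∀ x, 0 ≤ K x := fun x => le_trans (by positivity) (hK x)
  obtain ⟨c, hc, hrc⟩ := majorant hr hK
  obtain ⟨L, hL0, hL⟩ := hr.lip hμ.le
  obtain ⟨C, hC⟩ : ∃ C : ℝ, ∀ x, |r x| * x ^ 2 ≤ C := by
    obtain ⟨-, C, hC⟩ := hr.dec
    exact ⟨C, fun x => le_trans (mul_le_mul_of_nonneg_left (by linarith) (abs_nonneg _)) (hC x)⟩
  have hC0 : 0 ≤ C := by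
    have := hC 0
    simp at this
    exact this
  have hMK : 0 ≤ M K := M_nonneg hKt.dec hK0
  obtain ⟨X, hX1, hX⟩ := choose_X hKt hK0 hC0 (show 0 < ε / 16 by positivity)
  replace hX := hX X le_rfl
  have hX0 : 0 < X := by linarith
  have hKX : Test μ (fun x => K (x / X)) := (hKt.dil hX0).ext (by
    rw [div_le_iff₀ hX0]
    nlinarith)
  have hKX0 : ∀ x, 0 ≤ (fun x => K (x / X)) x := fun x => hK0 _
  -- the size of `θ`
  obtain ⟨θ, hθ⟩ : ∃ θ : ℝ, θ = min (1 / 2) (min (ε / (16 * (|M r| + 1)))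
      (ε / (16 * ((L + 1) * X * (1 + X ^ 2) * (M K + 1))))) := ⟨_, rfl⟩
  have hθ0 : 0 < θ := by
    rw [hθ]
    exact lt_min (by norm_num) (lt_min (by positivity) (by positivity))
  have hθ1 : θ ≤ 1 / 2 := by rw [hθ]; exact min_le_left _ _
  have hθ2 : θ * |M r| ≤ ε / 16 := by
    have h1 : θ ≤ ε / (16 * (|M r| + 1)) := by rw [hθ]; exact (min_le_right _ _).trans (min_le_left _ _)
    calc θ * |M r| ≤ ε / (16 * (|M r| + 1)) * (|M r| + 1) :=
          mul_le_mul h1 (by linarith) (abs_nonneg _) (by positivity)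
      _ = ε / 16 := by field_simp
  have hθ3 : (L * θ * X) * (1 + X ^ 2) * (M K + 1) ≤ ε / 16 := by
    have h1 : θ ≤ ε / (16 * ((L + 1) * X * (1 + X ^ 2) * (M K + 1))) := by
      rw [hθ]; exact (min_le_right _ _).trans (min_le_right _ _)
    calc (L * θ * X) * (1 + X ^ 2) * (M K + 1) = θ * (L * X * (1 + X ^ 2) * (M K + 1)) := by ring
      _ ≤ ε / (16 * ((L + 1) * X * (1 + X ^ 2) * (M K + 1))) * ((L + 1) * X * (1 + X ^ 2) * (M K + 1)) := by
          apply mul_le_mul h1 _ (by positivity) (by positivity)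
          apply mul_le_mul_of_nonneg_right _ (by positivity)
          apply mul_le_mul_of_nonneg_right _ (by positivity)
          apply mul_le_mul_of_nonneg_right _ (by positivity)
          linarith
      _ = ε / 16 := by field_simp
  obtain ⟨e, he⟩ : ∃ e : ℝ, e = min 1 (ε / (16 * (1 + c))) := ⟨_, rfl⟩
  have he0 : 0 < e := by rw [he]; exact lt_min one_pos (by positivity)
  have he1 : e ≤ 1 := by rw [he]; exact min_le_left _ _
  have he2 : (1 + c) * e ≤ ε / 16 := by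
    have h1 : e ≤ ε / (16 * (1 + c)) := by rw [he]; exact min_le_right _ _
    calc (1 + c) * e ≤ (1 + c) * (ε / (16 * (1 + c))) := mul_le_mul_of_nonneg_left h1 (by positivity)
      _ = ε / 16 := by field_simp
  have hr1 : Test μ (fun x => r x + c * K x) := hr.lin hKt c
  have hr10 : ∀ x, 0 ≤ (fun x => r x + c * K x) x := fun x => by
    have := (abs_le.1 (hrc x)).1
    show 0 ≤ r x + c * K x
    linarith
  obtain ⟨T1, hT1⟩ := eventually_atTop.1 (Real.tendsto_log_atTop.eventually (eventually_ge_atTop (|c₀| / θ + 1)))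
  refine three_measures ⟨max T1 10, fun T hT => ?_⟩ (all_H hRH hη0 hη1 hμ hgap he0 hr1 hr10)
    (all_H hRH hη0 hη1 hμ hgap he0 hKt hK0) (all_H hRH hη0 hη1 hμ hgap he0 hKX hKX0)
  rintro t ⟨ht, hbad⟩
  have hT10 : 10 ≤ T := (le_max_right _ _).trans hT
  have ht0 : 0 < t := by linarith [ht.1]
  by_contra hcon
  rw [Set.mem_union, Set.mem_union, not_or, not_or] at hcon
  obtain ⟨⟨c1, c2⟩, c3⟩ := hcon
  have d1 : ∀ H : ℝ, T ^ η ≤ H → H ≤ T / 16 → Law (fun x => r x + c * K x) e t H (Real.log T) := by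
    by_contra h4
    exact c1 ⟨ht, h4⟩
  have d2 : ∀ H : ℝ, T ^ η ≤ H → H ≤ T / 16 → Law K e t H (Real.log T) := by
    by_contra h4
    exact c2 ⟨ht, h4⟩
  have d3 : ∀ H : ℝ, T ^ η ≤ H → H ≤ T / 16 → Law (fun x => K (x / X)) e t H (Real.log T) := by
    by_contra h4
    exact c3 ⟨ht, h4⟩
  apply hbad
  intro H hH1 hH2 l hl
  have hlog : |c₀| / θ + 1 ≤ Real.log T := hT1 T ((le_max_left _ _).trans hT)
  have hlog0 : 0 < Real.log T := by
    have : 0 ≤ |c₀| / θ := by positivity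
    linarith
  have hH0 : 0 < H := lt_of_lt_of_le (Real.rpow_pos_of_pos (by linarith) _) hH1
  have hm : 0 ≤ H * Real.log T / (2 * Real.pi) := by
    have := Real.pi_pos
    positivity
  obtain ⟨ρ, hρ⟩ : ∃ ρ : ℝ, ρ = l / Real.log T := ⟨_, rfl⟩
  have hlρ : l = ρ * Real.log T := by rw [hρ]; field_simp
  have hρ1 : |ρ - 1| ≤ θ := by
    have e1 : ρ - 1 = (l - Real.log T) / Real.log T := by rw [hρ]; field_simp
    rw [e1, abs_div, abs_of_pos hlog0, div_le_iff₀ hlog0]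
    have h5 : |c₀| / θ ≤ Real.log T := by linarith
    rw [div_le_iff₀ hθ0] at h5
    linarith [le_abs_self c₀]
  have hρ2 : 1 / 2 ≤ ρ := by
    have := (abs_le.1 hρ1).1
    linarith
  have mono : ∀ {f : ℝ → ℝ} {e' : ℝ}, e ≤ e' → Law f e t H (Real.log T) → Law f e' t H (Real.log T) :=
    fun he' h5 => h5.trans (mul_le_mul_of_nonneg_right he' hm)
  have hl1 : Law r ((1 + c) * e) t H (Real.log T) := law_sub hr.dec hKt.dec hc ht0 (d1 H hH1 hH2) (d2 H hH1 hH2)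
  have hpt : ∀ x, |r (ρ * x) - r x| ≤ ((L * θ * X) * (1 + X ^ 2)) * K x + (10 * C / X ^ 2) * K (x / X) :=
    pointwise hK hX1 hC hC hρ2 (by positivity) (fun x hx => by
      refine (hL _ _).trans ?_
      have e1 : ρ * x - x = (ρ - 1) * x := by ring
      rw [e1, abs_mul, mul_assoc L]
      exact mul_le_mul_of_nonneg_left (mul_le_mul hρ1 hx (abs_nonneg _) hθ0.le) hL0)
  have key := law_close hpt (by positivity) (by positivity) ht0 hm hl1 (mono he1 (d2 H hH1 hH2))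
    (mono he1 (d3 H hH1 hH2)) (D := ε / 2) (by
      have h6 : |ρ * M r - M r| ≤ ε / 16 := by
        have e1 : ρ * M r - M r = (ρ - 1) * M r := by ring
        rw [e1, abs_mul]
        exact (mul_le_mul_of_nonneg_right hρ1 (abs_nonneg _)).trans hθ2
      linarith)
  rw [← hlρ] at key
  unfold Law
  refine key.trans ?_
  have e2 : H * l / (2 * Real.pi) = ρ * (H * Real.log T / (2 * Real.pi)) := by rw [hlρ]; ring
  rw [e2]
  calc ε / 2 * (H * Real.log T / (2 * Real.pi)) = ε * (1 / 2 * (H * Real.log T / (2 * Real.pi))) := by ring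
    _ ≤ ε * (ρ * (H * Real.log T / (2 * Real.pi))) :=
        mul_le_mul_of_nonneg_left (mul_le_mul_of_nonneg_right hρ2 hm) hε.le

end Run7.h527.PC
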