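import Mathlib

set_option autoImplicit false

/-! Thin sets of integers from thin sets of real numbers (helper527). -/

open Filter Topology MeasureTheory Finset

namespace Run7.h527.Thin

/-- the set `B` of real numbers is thin -/
def ThinR (B : Set ℝ) : Prop := ∃ δ : ℝ, 0 < δ ∧ ∃ T₀ : ℝ, ∀ T : ℝ, T₀ ≤ T →
  volume (B ∩ Set.Icc T (2 * T)) ≤ ENNReal.ofReal (T ^ (1 - δ))

/-- a failure of `Q` at `g` makes a one-sided neighbourhood of length `A ≤ g ^ κ` of `g` a part of `B` -/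
def Spreads (Q : ℝ → Prop) (B : Set ℝ) (κ : ℝ) : Prop := ∃ g₀ : ℝ, ∀ g : ℝ, g₀ ≤ g → ∀ A : ℝ, 0 < A → A ≤ g ^ κ → ¬ Q g →
  Set.Ico g (g + A) ⊆ B ∨ Set.Ico (g - A) g ⊆ B

open Classical in
/-- the set `E` of natural numbers is thin -/
def ThinN (E : Set ℕ) : Prop := ∃ θ K : ℝ, 0 < θ ∧ θ < 1 ∧ ∀ X : ℕ, 1 ≤ X →
  (((Icc 1 X).filter (fun v => v ∈ E)).card : ℝ) ≤ K * (X : ℝ) ^ θ

/-- disjoint intervals in a small set -/
lemma disjoint_count (F : Finset ℕ) (s : ℕ → ℝ) {A V : ℝ} (hA : 0 < A) (hV : 0 ≤ V) (B : Set ℝ)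
    (hB : volume B ≤ ENNReal.ofReal V) (h1 : ∀ v ∈ F, Set.Ico (s v) (s v + A) ⊆ B)
    (h2 : ∀ v ∈ F, ∀ w ∈ F, v < w → s v + A ≤ s w) : (F.card : ℝ) * A ≤ V := by
  have e1 : volume (⋃ v ∈ F, Set.Ico (s v) (s v + A)) = ∑ v ∈ F, volume (Set.Ico (s v) (s v + A)) := by
    apply measure_biUnion_finset
    · intro u hu v hv huv
      rw [Function.onFun, Set.disjoint_left]
      rintro x ⟨hx1, hx2⟩ ⟨hx3, hx4⟩
      rcases lt_or_gt_of_ne huv with hlt | hlt
      · linarith [h2 u hu v hv hlt]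
      · linarith [h2 v hv u hu hlt]
    · intro q _
      exact measurableSet_Ico
  have e2 : ∑ v ∈ F, volume (Set.Ico (s v) (s v + A)) = ENNReal.ofReal (F.card * A) := by
    simp only [Real.volume_Ico, add_sub_cancel_left, sum_const, nsmul_eq_mul]
    rw [ENNReal.ofReal_mul (Nat.cast_nonneg _), ENNReal.ofReal_natCast]
  have e3 : volume (⋃ v ∈ F, Set.Ico (s v) (s v + A)) ≤ volume B := measure_mono (Set.iUnion₂_subset h1)
  rw [e1, e2] at e3
  exact (ENNReal.ofReal_le_ofReal_iff hV).1 (e3.trans hB)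

lemma step_sum {G : ℕ → ℝ} {a : ℝ} (h : ∀ v : ℕ, 1 ≤ v → a ≤ G (v + 1) - G v) {u v : ℕ} (hu : 1 ≤ u) (huv : u ≤ v) :
    a * ((v : ℝ) - u) ≤ G v - G u := by
  induction v, huv using Nat.le_induction with
  | base => simp
  | succ n hn ih =>
    have := h n (hu.trans hn)
    push_cast
    linarith

/-- a long range is covered by a bounded number of dyadic ranges -/
lemma range_measure {B : Set ℝ} {δ T₀ : ℝ} (hδ : δ ≤ 1) (h : ∀ T : ℝ, T₀ ≤ T →
    volume (B ∩ Set.Icc T (2 * T)) ≤ ENNReal.ofReal (T ^ (1 - δ))) {T : ℝ} (hT : T₀ ≤ T) (hT0 : 0 < T) (m : ℕ) :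
    volume (B ∩ Set.Icc T (2 ^ m * T)) ≤ ENNReal.ofReal (m * (2 ^ m * T) ^ (1 - δ)) := by
  induction m with
  | zero =>
    simp only [pow_zero, one_mul, Nat.cast_zero, zero_mul, ENNReal.ofReal_zero, nonpos_iff_eq_zero]
    refine measure_mono_null (Set.inter_subset_right) ?_
    rw [Set.Icc_self]
    exact Real.volume_singleton
  | succ m ih =>
    have h1 : B ∩ Set.Icc T (2 ^ (m + 1) * T) ⊆ (B ∩ Set.Icc T (2 ^ m * T)) ∪
        (B ∩ Set.Icc (2 ^ m * T) (2 * (2 ^ m * T))) := by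
      rintro x ⟨hx, hx1, hx2⟩
      rcases le_or_gt x (2 ^ m * T) with h3 | h3
      · exact Or.inl ⟨hx, hx1, h3⟩
      · refine Or.inr ⟨hx, h3.le, hx2.trans (le_of_eq ?_)⟩
        ring
    have h4 : (1 : ℝ) ≤ 2 ^ m := one_le_pow₀ (by norm_num)
    have h5 : T ≤ 2 ^ m * T := by nlinarith
    have h6 : 0 ≤ 1 - δ := by linarith
    calc volume (B ∩ Set.Icc T (2 ^ (m + 1) * T))
        ≤ volume (B ∩ Set.Icc T (2 ^ m * T)) + volume (B ∩ Set.Icc (2 ^ m * T) (2 * (2 ^ m * T))) :=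
          (measure_mono h1).trans (measure_union_le _ _)
      _ ≤ ENNReal.ofReal (m * (2 ^ m * T) ^ (1 - δ)) + ENNReal.ofReal ((2 ^ m * T) ^ (1 - δ)) :=
          add_le_add ih (h _ (hT.trans h5))
      _ = ENNReal.ofReal (m * (2 ^ m * T) ^ (1 - δ) + (2 ^ m * T) ^ (1 - δ)) :=
          (ENNReal.ofReal_add (by positivity) (by positivity)).symm
      _ ≤ ENNReal.ofReal (((m + 1 : ℕ) : ℝ) * (2 ^ (m + 1) * T) ^ (1 - δ)) := by
          apply ENNReal.ofReal_le_ofReal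
          have h7 : (2 ^ m * T) ^ (1 - δ) ≤ (2 ^ (m + 1) * T) ^ (1 - δ) := by
            apply Real.rpow_le_rpow (by positivity) _ h6
            rw [pow_succ]
            nlinarith
          push_cast
          have h8 : (m : ℝ) * (2 ^ m * T) ^ (1 - δ) ≤ m * (2 ^ (m + 1) * T) ^ (1 - δ) :=
            mul_le_mul_of_nonneg_left h7 (Nat.cast_nonneg m)
          linarith

open Classical in
/-- from dyadic blocks to all integers -/
lemma dyadic_sum {E : Set ℕ} {θ C : ℝ} (hθ : 0 < θ) (hC : 0 ≤ C) (h : ∀ X : ℕ, 1 ≤ X →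
    (((Ioc (X / 2) X).filter (fun v => v ∈ E)).card : ℝ) ≤ C * (X : ℝ) ^ θ) (X : ℕ) :
    (((Icc 1 X).filter (fun v => v ∈ E)).card : ℝ) ≤ C / (1 - (2 : ℝ) ^ (-θ)) * (X : ℝ) ^ θ := by
  have h2 : (2 : ℝ) ^ (-θ) < 1 := Real.rpow_lt_one_of_one_lt_of_neg (by norm_num) (by linarith)
  have h3 : 0 < 1 - (2 : ℝ) ^ (-θ) := by linarith
  induction X using Nat.strong_induction_on with
  | _ X ih =>
    rcases Nat.eq_zero_or_pos X with h0 | h0
    · subst h0
      simp only [Nat.cast_zero]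
      rw [Real.zero_rpow hθ.ne', mul_zero]
      simp
    · have ih2 := ih (X / 2) (by omega)
      have h4 : (Icc 1 X).filter (fun v => v ∈ E) ⊆ (Icc 1 (X / 2)).filter (fun v => v ∈ E) ∪
          (Ioc (X / 2) X).filter (fun v => v ∈ E) := by
        intro v hv
        rw [mem_filter, mem_Icc] at hv
        rw [mem_union, mem_filter, mem_filter, mem_Icc, mem_Ioc]
        rcases le_or_gt v (X / 2) with h5 | h5
        · exact Or.inl ⟨⟨hv.1.1, h5⟩, hv.2⟩
        · exact Or.inr ⟨⟨h5, hv.1.2⟩, hv.2⟩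
      have h5 : (((Icc 1 X).filter (fun v => v ∈ E)).card : ℝ) ≤
          (((Icc 1 (X / 2)).filter (fun v => v ∈ E)).card : ℝ) + (((Ioc (X / 2) X).filter (fun v => v ∈ E)).card : ℝ) := by
        exact_mod_cast (card_le_card h4).trans (card_union_le _ _)
      have h6 : ((X / 2 : ℕ) : ℝ) ^ θ ≤ (2 : ℝ) ^ (-θ) * (X : ℝ) ^ θ := by
        have h7 : ((X / 2 : ℕ) : ℝ) ≤ X / 2 := Nat.cast_div_le
        calc ((X / 2 : ℕ) : ℝ) ^ θ ≤ ((X : ℝ) / 2) ^ θ := Real.rpow_le_rpow (Nat.cast_nonneg _) h7 hθ.le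
          _ = (2 : ℝ) ^ (-θ) * (X : ℝ) ^ θ := by
              rw [Real.div_rpow (Nat.cast_nonneg _) (by norm_num), Real.rpow_neg (by norm_num)]
              field_simp
      have h7 := h X h0
      have h8 : C / (1 - (2 : ℝ) ^ (-θ)) * ((X / 2 : ℕ) : ℝ) ^ θ ≤
          C / (1 - (2 : ℝ) ^ (-θ)) * ((2 : ℝ) ^ (-θ) * (X : ℝ) ^ θ) :=
        mul_le_mul_of_nonneg_left h6 (by positivity)
      have h9 : C / (1 - (2 : ℝ) ^ (-θ)) * ((2 : ℝ) ^ (-θ) * (X : ℝ) ^ θ) + C * (X : ℝ) ^ θ =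
          C / (1 - (2 : ℝ) ^ (-θ)) * (X : ℝ) ^ θ := by
        field_simp
        ring
      linarith

open Classical in
/-- **The integers `v` with a failure near `G v` are a thin set.** -/
theorem thin_near {Q : ℝ → Prop} {B : Set ℝ} {κ κ' : ℝ} (hB : ThinR B) (hst : Spreads Q B κ') (hκ0 : 0 ≤ κ)
    (hκ : κ < κ') (hκ1 : κ < 1) {G : ℕ → ℝ} {a C : ℝ} (ha : 0 < a) (h : ∀ v : ℕ, 1 ≤ v → a ≤ G (v + 1) - G v)
    (hG : ∀ v : ℕ, 1 ≤ v → G v ≤ C * v) :
    ThinN {v : ℕ | ∃ t : ℝ, |t - G v| ≤ (v : ℝ) ^ κ ∧ ¬ Q t} := by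
  obtain ⟨δ₁, hδ₁, T₀, hB⟩ := hB
  obtain ⟨g₀, hst⟩ := hst
  -- normalise `δ`
  obtain ⟨δ, hδ⟩ : ∃ δ : ℝ, δ = min δ₁ (1 / 2) := ⟨_, rfl⟩
  have hδ0 : 0 < δ := by rw [hδ]; exact lt_min hδ₁ (by norm_num)
  have hδ1 : δ ≤ 1 / 2 := by rw [hδ]; exact min_le_right _ _
  have hB' : ∀ T : ℝ, max T₀ 1 ≤ T → volume (B ∩ Set.Icc T (2 * T)) ≤ ENNReal.ofReal (T ^ (1 - δ)) := by
    intro T hT
    refine (hB T ((le_max_left _ _).trans hT)).trans (ENNReal.ofReal_le_ofReal ?_)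
    apply Real.rpow_le_rpow_of_exponent_le ((le_max_right _ _).trans hT)
    have : δ ≤ δ₁ := by rw [hδ]; exact min_le_left _ _
    linarith
  obtain ⟨c, hc⟩ : ∃ c : ℝ, c = a / 16 := ⟨_, rfl⟩
  have hc0 : 0 < c := by rw [hc]; positivity
  obtain ⟨m, hm⟩ := pow_unbounded_of_one_lt ((|C| + 2) / c) (one_lt_two : (1 : ℝ) < 2)
  rw [div_lt_iff₀ hc0] at hm
  -- large `X`
  have ev1 : ∀ᶠ X : ℕ in atTop, max T₀ 1 ≤ c * (X : ℝ) :=
    (tendsto_natCast_atTop_atTop.const_mul_atTop hc0).eventually (eventually_ge_atTop _)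
  have ev2 : ∀ᶠ X : ℕ in atTop, g₀ ≤ 2 * c * (X : ℝ) :=
    (tendsto_natCast_atTop_atTop.const_mul_atTop (by positivity)).eventually (eventually_ge_atTop _)
  have ev3 : ∀ᶠ X : ℕ in atTop, (X : ℝ) ^ κ ≤ c / 2 * X := by
    have h1 := (tendsto_rpow_atTop (show 0 < 1 - κ by linarith)).comp (tendsto_natCast_atTop_atTop (R := ℝ))
    filter_upwards [h1.eventually (eventually_ge_atTop (2 / c)), eventually_ge_atTop 1] with X h2 h3
    have hX0 : (0 : ℝ) < X := by exact_mod_cast h3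
    simp only [Function.comp] at h2
    have h4 := mul_le_mul_of_nonneg_right h2 (show 0 ≤ (X : ℝ) ^ κ by positivity)
    rw [← Real.rpow_add hX0, sub_add_cancel, Real.rpow_one] at h4
    calc (X : ℝ) ^ κ = c / 2 * (2 / c * (X : ℝ) ^ κ) := by field_simp
      _ ≤ c / 2 * X := mul_le_mul_of_nonneg_left h4 (by positivity)
  have ev4 : ∀ᶠ X : ℕ in atTop, (X : ℝ) ^ κ ≤ (c * X) ^ κ' := by
    have h1 := (tendsto_rpow_atTop (show 0 < κ' - κ by linarith)).comp (tendsto_natCast_atTop_atTop (R := ℝ))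
    filter_upwards [h1.eventually (eventually_ge_atTop (1 / c ^ κ')), eventually_ge_atTop 1] with X h2 h3
    have hX0 : (0 : ℝ) < X := by exact_mod_cast h3
    simp only [Function.comp] at h2
    have h4 := mul_le_mul_of_nonneg_right h2 (show 0 ≤ (X : ℝ) ^ κ by positivity)
    rw [← Real.rpow_add hX0, sub_add_cancel] at h4
    rw [Real.mul_rpow hc0.le hX0.le]
    calc (X : ℝ) ^ κ = c ^ κ' * (1 / c ^ κ' * (X : ℝ) ^ κ) := by field_simp
      _ ≤ c ^ κ' * (X : ℝ) ^ κ' := mul_le_mul_of_nonneg_left h4 (by positivity)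
  have ev5 : ∀ᶠ X : ℕ in atTop, |G 1| + a ≤ c * (X : ℝ) :=
    (tendsto_natCast_atTop_atTop.const_mul_atTop hc0).eventually (eventually_ge_atTop _)
  obtain ⟨X₀, hX₀⟩ := eventually_atTop.1 (ev1.and (ev2.and (ev3.and (ev4.and ev5))))
  -- the bound for a dyadic block
  obtain ⟨K, hK⟩ : ∃ K : ℝ, K = (8 / a + 2) * (m * (2 ^ m * c) ^ (1 - δ)) := ⟨_, rfl⟩
  have hK0 : 0 ≤ K := by rw [hK]; positivity
  have hblock : ∀ X : ℕ, X₀ ≤ X → 1 ≤ X → (((Ioc (X / 2) X).filter (fun v => v ∈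
      {v : ℕ | ∃ t : ℝ, |t - G v| ≤ (v : ℝ) ^ κ ∧ ¬ Q t})).card : ℝ) ≤ K * (X : ℝ) ^ (1 - δ) := by
    intro X hX hX1
    obtain ⟨g1, g2, g3, g4, g5⟩ := hX₀ X hX
    have hX0 : (0 : ℝ) < X := by exact_mod_cast hX1
    have hX1' : (1 : ℝ) ≤ X := by exact_mod_cast hX1
    obtain ⟨A, hA⟩ : ∃ A : ℝ, A = (X : ℝ) ^ κ := ⟨_, rfl⟩
    have hA1 : 1 ≤ A := by rw [hA]; exact Real.one_le_rpow hX1' hκ0
    rw [← hA] at g3 g4
    -- the positions of the intervals
    have hpos : ∀ v : ℕ, v ∈ (Ioc (X / 2) X).filter (fun v => v ∈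
        {v : ℕ | ∃ t : ℝ, |t - G v| ≤ (v : ℝ) ^ κ ∧ ¬ Q t}) → ∃ s : ℝ, G v - 2 * A ≤ s ∧ s ≤ G v + A ∧
        Set.Ico s (s + A) ⊆ B := by
      intro v hv
      rw [mem_filter, mem_Ioc] at hv
      obtain ⟨⟨hv1, hv2⟩, t, ht, hQ⟩ := hv
      have hv0 : (1 : ℝ) ≤ v := by exact_mod_cast (by omega : 1 ≤ v)
      have hvX : (v : ℝ) ≤ X := by exact_mod_cast hv2
      have hvX2 : (X : ℝ) ≤ 2 * v := by exact_mod_cast (by omega : X ≤ 2 * v)
      have hvA : (v : ℝ) ^ κ ≤ A := by rw [hA]; exact Real.rpow_le_rpow (by linarith) hvX hκ0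
      have ht' := abs_le.1 (ht.trans hvA)
      have hGv := step_sum h (le_refl 1) (show 1 ≤ v by omega)
      have hG1 := neg_abs_le (G 1)
      rw [Nat.cast_one] at hGv
      have ht2 : 2 * c * X ≤ t := by
        have e1 : a * ((X : ℝ) / 2) ≤ a * v := mul_le_mul_of_nonneg_left (by linarith) ha.le
        have e2 : a = 16 * c := by rw [hc]; ring
        have e3 : a * (X : ℝ) = 16 * (c * X) := by rw [e2]; ring
        have e4 : c / 2 * (X : ℝ) = (c * X) / 2 := by ring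
        linarith
      have htpos : 0 < t := lt_of_lt_of_le (by positivity) ht2
      have hAκ : A ≤ t ^ κ' := by
        refine g4.trans (Real.rpow_le_rpow (by positivity) ?_ (hκ0.trans hκ.le))
        have : 0 < c * (X : ℝ) := by positivity
        linarith
      rcases hst t (g2.trans ht2) A (by linarith) hAκ hQ with h3 | h3
      · exact ⟨t, by linarith, by linarith, h3⟩
      · refine ⟨t - A, by linarith, by linarith, ?_⟩
        rw [sub_add_cancel]
        exact h3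
    choose! s hs1 hs2 hs3 using hpos
    obtain ⟨F, hF⟩ : ∃ F, F = (Ioc (X / 2) X).filter (fun v => v ∈
        {v : ℕ | ∃ t : ℝ, |t - G v| ≤ (v : ℝ) ^ κ ∧ ¬ Q t}) := ⟨_, rfl⟩
    rw [← hF] at hs1 hs2 hs3 ⊢
    have hFX : ∀ v ∈ F, X / 2 < v ∧ v ≤ X := by
      intro v hv
      rw [hF, mem_filter, mem_Ioc] at hv
      exact hv.1
    -- the residue classes
    obtain ⟨L, hL⟩ : ∃ L : ℕ, L = ⌈4 * A / a⌉₊ + 1 := ⟨_, rfl⟩
    have hL1 : 4 * A ≤ a * L := by
      have h3 : 4 * A / a ≤ L := by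
        rw [hL]
        push_cast
        linarith [Nat.le_ceil (4 * A / a)]
      rw [div_le_iff₀ ha] at h3
      linarith
    have hL2 : (L : ℝ) ≤ (4 / a + 2) * A := by
      have h3 := Nat.ceil_lt_add_one (show 0 ≤ 4 * A / a by positivity)
      have e1 : (L : ℝ) = ⌈4 * A / a⌉₊ + 1 := by rw [hL]; push_cast; ring
      have e2 : 4 * A / a = 4 / a * A := by ring
      rw [e1]
      rw [e2] at h3 ⊢
      linarith
    have hL0 : 0 < L := by omega
    obtain ⟨V, hV⟩ : ∃ V : ℝ, V = m * (2 ^ m * (c * X)) ^ (1 - δ) := ⟨_, rfl⟩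
    have hV0 : 0 ≤ V := by rw [hV]; positivity
    have hvol : volume (B ∩ Set.Icc (c * (X : ℝ)) (2 ^ m * (c * X))) ≤ ENNReal.ofReal V := by
      rw [hV]
      exact range_measure (by linarith) hB' g1 (by positivity) m
    have hclass : ∀ j ∈ range L, ((F.filter (fun v => v % L = j)).card : ℝ) * A ≤ V := by
      intro j _
      refine disjoint_count (F.filter (fun v => v % L = j)) s (by linarith) hV0 _ hvol ?_ ?_
      · intro v hv
        rw [mem_filter] at hv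
        obtain ⟨hv1, hv2⟩ := hFX v hv.1
        have b1 := hs1 v hv.1
        have b2 := hs2 v hv.1
        have hv0 : 1 ≤ v := by omega
        have hvX : (v : ℝ) ≤ X := by exact_mod_cast hv2
        have hvX2 : (X : ℝ) ≤ 2 * v := by exact_mod_cast (by omega : X ≤ 2 * v)
        have hGv := step_sum h (le_refl 1) hv0
        have hG1 := neg_abs_le (G 1)
        rw [Nat.cast_one] at hGv
        have e1 : a * ((X : ℝ) / 2) ≤ a * v := mul_le_mul_of_nonneg_left (by linarith) ha.le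
        have e2 : a = 16 * c := by rw [hc]; ring
        have e3 : a * (X : ℝ) = 16 * (c * X) := by rw [e2]; ring
        have e4 : c / 2 * (X : ℝ) = (c * X) / 2 := by ring
        have e5 : G v ≤ |C| * X := (hG v hv0).trans (mul_le_mul (le_abs_self C) hvX (Nat.cast_nonneg _) (abs_nonneg _))
        have e6 : (|C| + 2) * X ≤ 2 ^ m * c * X := mul_le_mul_of_nonneg_right hm.le hX0.le
        have e7 : A ≤ X := by
          rw [hA]
          calc (X : ℝ) ^ κ ≤ (X : ℝ) ^ (1 : ℝ) := Real.rpow_le_rpow_of_exponent_le hX1' hκ1.le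
            _ = X := Real.rpow_one _
        refine Set.subset_inter (hs3 v hv.1) ?_
        rintro x ⟨hx1, hx2⟩
        constructor
        · linarith
        · have e8 : (2 : ℝ) ^ m * (c * X) = 2 ^ m * c * X := by ring
          rw [e8]
          linarith
      · intro v hv w hw hvw
        rw [mem_filter] at hv hw
        have b1 := hs2 v hv.1
        have b2 := hs1 w hw.1
        have h3 : v + L ≤ w := by
          have h4 : L ∣ w - v := (Nat.modEq_iff_dvd' hvw.le).1 (show v % L = w % L by rw [hv.2, hw.2])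
          have h5 := Nat.le_of_dvd (by omega) h4
          omega
        have hv0 : 1 ≤ v := by
          have := (hFX v hv.1).1
          omega
        have h4 := step_sum h hv0 (show v ≤ w by omega)
        have h5 : (L : ℝ) ≤ (w : ℝ) - v := by
          have : (v : ℝ) + L ≤ w := by exact_mod_cast h3
          linarith
        have h6 : a * L ≤ a * ((w : ℝ) - v) := mul_le_mul_of_nonneg_left h5 ha.le
        linarith
    have hsum : (F.card : ℝ) * A ≤ L * V := by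
      have e1 : F.card = ∑ j ∈ range L, (F.filter (fun v => v % L = j)).card :=
        card_eq_sum_card_fiberwise (fun v _ => by
          rw [coe_range]
          exact Nat.mod_lt v hL0)
      have e2 : (F.card : ℝ) = ∑ j ∈ range L, ((F.filter (fun v => v % L = j)).card : ℝ) := by
        rw [e1]
        push_cast
        rfl
      rw [e2, sum_mul]
      calc ∑ j ∈ range L, ((F.filter (fun v => v % L = j)).card : ℝ) * A ≤ ∑ _j ∈ range L, V := sum_le_sum hclass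
        _ = L * V := by rw [sum_const, card_range, nsmul_eq_mul]
    have h7 : (F.card : ℝ) * A ≤ ((4 / a + 2) * V) * A := by
      calc (F.card : ℝ) * A ≤ L * V := hsum
        _ ≤ ((4 / a + 2) * A) * V := mul_le_mul_of_nonneg_right hL2 hV0
        _ = ((4 / a + 2) * V) * A := by ring
    have h8 : (F.card : ℝ) ≤ (4 / a + 2) * V := le_of_mul_le_mul_right h7 (by linarith)
    have h9 : V = m * (2 ^ m * c) ^ (1 - δ) * (X : ℝ) ^ (1 - δ) := by
      rw [hV, show (2 : ℝ) ^ m * (c * X) = (2 ^ m * c) * X by ring, Real.mul_rpow (by positivity) hX0.le]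
      ring
    refine h8.trans ?_
    rw [h9, hK]
    have h10 : (4 / a + 2 : ℝ) ≤ 8 / a + 2 := by
      have : 4 / a ≤ 8 / a := div_le_div_of_nonneg_right (by norm_num) ha.le
      linarith
    calc (4 / a + 2) * (m * (2 ^ m * c) ^ (1 - δ) * (X : ℝ) ^ (1 - δ)) ≤
        (8 / a + 2) * (m * (2 ^ m * c) ^ (1 - δ) * (X : ℝ) ^ (1 - δ)) := mul_le_mul_of_nonneg_right h10 (by positivity)
      _ = _ := by ring
  refine ⟨1 - δ, (K + X₀) / (1 - (2 : ℝ) ^ (-(1 - δ))), by linarith, by linarith, fun X _ => ?_⟩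
  refine dyadic_sum (by linarith) (by positivity) (fun Y hY => ?_) X
  have hY1 : (1 : ℝ) ≤ (Y : ℝ) ^ (1 - δ) := Real.one_le_rpow (by exact_mod_cast hY) (by linarith)
  rcases lt_or_ge Y X₀ with h1 | h1
  · have h2 : (((Ioc (Y / 2) Y).filter (fun v => v ∈
      {v : ℕ | ∃ t : ℝ, |t - G v| ≤ (v : ℝ) ^ κ ∧ ¬ Q t})).card : ℝ) ≤ X₀ := by
      have h3 : ((Ioc (Y / 2) Y).filter (fun v => v ∈
        {v : ℕ | ∃ t : ℝ, |t - G v| ≤ (v : ℝ) ^ κ ∧ ¬ Q t})).card ≤ Y := by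
        calc _ ≤ (Ioc (Y / 2) Y).card := card_filter_le _ _
          _ = Y - Y / 2 := Nat.card_Ioc _ _
          _ ≤ Y := Nat.sub_le _ _
      have h4 : (Y : ℝ) ≤ X₀ := by exact_mod_cast h1.le
      have h5 : (((Ioc (Y / 2) Y).filter (fun v => v ∈
        {v : ℕ | ∃ t : ℝ, |t - G v| ≤ (v : ℝ) ^ κ ∧ ¬ Q t})).card : ℝ) ≤ Y := by exact_mod_cast h3
      linarith
    have h3 : (X₀ : ℝ) ≤ (K + X₀) * (Y : ℝ) ^ (1 - δ) := by
      have h4 : (X₀ : ℝ) * 1 ≤ (K + X₀) * (Y : ℝ) ^ (1 - δ) :=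
        mul_le_mul (by linarith) hY1 zero_le_one (by positivity)
      linarith
    exact h2.trans h3
  · refine (hblock Y h1 hY).trans ?_
    exact mul_le_mul_of_nonneg_right (by linarith [Nat.cast_nonneg (α := ℝ) X₀]) (by positivity)

end Run7.h527.Thin
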