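import Pool.Agent.Run7.h527.PC.C
import Pool.Agent.Run7.h527.PC.Thin

set_option autoImplicit false

/-! The law at a point, and its stability (helper527). -/

open Filter Topology MeasureTheory

namespace Run7.h527.PC

/-- the law for all windows `(t, t + H]` with `t^η ≤ H ≤ t / d` and all scales `l` with `|l - log t| ≤ c` -/
def LawAll (r : ℝ → ℝ) (ε η c d t : ℝ) : Prop :=
  ∀ H : ℝ, t ^ η ≤ H → H ≤ t / d → ∀ l : ℝ, |l - Real.log t| ≤ c → Law r ε t H l

/-- the exceptional set -/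
def Bad (r : ℝ → ℝ) (ε η c : ℝ) : Set ℝ := {t : ℝ | ¬ LawAll r ε η c 32 t}

/-- few exceptional `t` -/
theorem few (hRH : RiemannHypothesis) {η μ ε : ℝ} (hη0 : 0 < η) (hη1 : η < 1) (hμ : 0 < μ) (hgap : 2 * μ < 1 + η)
    (hε : 0 < ε) {r : ℝ → ℝ} (hr : Test μ r) (c : ℝ) :
    ∃ δ : ℝ, 0 < δ ∧ ∃ T0 : ℝ, 10 ≤ T0 ∧ ∀ T : ℝ, T0 ≤ T →
      volume (Bad r ε η c ∩ Set.Icc T (2 * T)) ≤ ENNReal.ofReal (T ^ (1 - δ)) := by
  obtain ⟨δ, hδ, T0, hT0, h⟩ := all_scales hRH hη0 hη1 hμ hgap hε hr (c + 1)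
  refine ⟨δ, hδ, T0, hT0, fun T hT => (measure_mono ?_).trans (h T hT)⟩
  rintro t ⟨ht, ht2⟩
  refine ⟨ht2, fun hcon => ht ?_⟩
  intro H hH1 hH2 l hl
  have hTpos : 0 < T := by linarith
  refine hcon H ((Real.rpow_le_rpow hTpos.le ht2.1 hη0.le).trans hH1) (by linarith [ht2.2]) l ?_
  have h1 : Real.log T ≤ Real.log t := Real.log_le_log hTpos ht2.1
  have h2 : Real.log t ≤ Real.log 2 + Real.log T := by
    rw [← Real.log_mul (by norm_num) hTpos.ne']
    exact Real.log_le_log (by linarith [ht2.1]) ht2.2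
  have h3 : Real.log 2 ≤ 1 := by linarith [Real.log_two_lt_d9]
  rw [abs_le] at hl ⊢
  constructor <;> linarith

/-- few exceptional `t`, with a power of the logarithm -/
theorem few_log (hRH : RiemannHypothesis) {η μ ε : ℝ} (hη0 : 0 < η) (hη1 : η < 1) (hμ : 0 < μ) (hgap : 2 * μ < 1 + η)
    (hε : 0 < ε) {r : ℝ → ℝ} (hr : Test μ r) (c : ℝ) (U : ℕ) :
    ∃ T0 : ℝ, ∀ T : ℝ, T0 ≤ T → volume (Bad r ε η c ∩ Set.Icc T (2 * T)) ≤ ENNReal.ofReal (T / Real.log T ^ U) := by
  obtain ⟨δ, hδ, T0, hT0, h⟩ := few hRH hη0 hη1 hμ hgap hε hr c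
  have ev1 : ∀ᶠ T : ℝ in atTop, Real.log T ^ U ≤ T ^ δ := by
    have h1 := isLittleO_log_rpow_rpow_atTop (U : ℝ) hδ
    filter_upwards [h1.bound one_pos, eventually_ge_atTop (1 : ℝ)] with T h2 h3
    rw [one_mul, Real.rpow_natCast, Real.norm_of_nonneg (pow_nonneg (Real.log_nonneg h3) _),
      Real.norm_of_nonneg (by positivity)] at h2
    exact h2
  obtain ⟨T1, hT1⟩ := eventually_atTop.1 ev1
  refine ⟨max T0 T1, fun T hT => (h T ((le_max_left _ _).trans hT)).trans (ENNReal.ofReal_le_ofReal ?_)⟩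
  have hT10 : 10 ≤ T := hT0.trans ((le_max_left _ _).trans hT)
  have hTpos : 0 < T := by linarith
  have hlog : 0 < Real.log T := Real.log_pos (by linarith)
  rw [le_div_iff₀ (by positivity)]
  calc T ^ (1 - δ) * Real.log T ^ U ≤ T ^ (1 - δ) * T ^ δ :=
        mul_le_mul_of_nonneg_left (hT1 T ((le_max_right _ _).trans hT)) (by positivity)
    _ = T := by rw [← Real.rpow_add hTpos, sub_add_cancel, Real.rpow_one]

/-- **Stability**: if the law fails at `g`, then it fails on `[g, g + A)` or on `[g - A, g)`, for all `A ≤ g ^ κ`. -/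
theorem spreads {r : ℝ → ℝ} (hr : Dec r) (hr0 : ∀ x, 0 ≤ r x) {ε y z c κ : ℝ} (hε : 0 < ε) (hy : 0 < y) (hyz : y < z)
    (hκz : κ < z) (hκ1 : κ < 1) : Run7.h527.Thin.Spreads (LawAll r ε z c 40) (Bad r (ε / 2) y (c + 1)) κ := by
  have hM : 0 ≤ M r := M_nonneg hr hr0
  have ev1 : ∀ᶠ g : ℝ in atTop, 2 / ε * ((M r + ε) * g ^ κ) ≤ g ^ z := by
    filter_upwards [(tendsto_rpow_atTop (show 0 < z - κ by linarith)).eventually
      (eventually_ge_atTop (2 / ε * (M r + ε))), eventually_ge_atTop (1 : ℝ)] with g h3 h4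
    have h5 : 0 ≤ g ^ κ := by positivity
    calc 2 / ε * ((M r + ε) * g ^ κ) = (2 / ε * (M r + ε)) * g ^ κ := by ring
      _ ≤ g ^ (z - κ) * g ^ κ := mul_le_mul_of_nonneg_right h3 h5
      _ = g ^ z := by rw [← Real.rpow_add (by linarith)]; congr 1; ring
  have ev2 : ∀ᶠ g : ℝ in atTop, (2 * g) ^ y + g ^ κ ≤ g ^ z := by
    filter_upwards [(tendsto_rpow_atTop (show 0 < z - y by linarith)).eventually (eventually_ge_atTop (2 * (2 : ℝ) ^ y)),
      (tendsto_rpow_atTop (show 0 < z - κ by linarith)).eventually (eventually_ge_atTop (2 : ℝ)),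
      eventually_ge_atTop (1 : ℝ)] with g h3 h6 h4
    rw [Real.mul_rpow (by norm_num) (by linarith)]
    have h7 : 2 * (2 : ℝ) ^ y * g ^ y ≤ g ^ z := by
      calc 2 * (2 : ℝ) ^ y * g ^ y ≤ g ^ (z - y) * g ^ y := mul_le_mul_of_nonneg_right h3 (by positivity)
        _ = g ^ z := by rw [← Real.rpow_add (by linarith)]; congr 1; ring
    have h8 : 2 * g ^ κ ≤ g ^ z := by
      calc 2 * g ^ κ ≤ g ^ (z - κ) * g ^ κ := mul_le_mul_of_nonneg_right h6 (by positivity)
        _ = g ^ z := by rw [← Real.rpow_add (by linarith)]; congr 1; ring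
    linarith
  have ev3 : ∀ᶠ g : ℝ in atTop, c + 1 ≤ Real.log g := Real.tendsto_log_atTop.eventually (eventually_ge_atTop _)
  have ev4 : ∀ᶠ g : ℝ in atTop, 1000 * g ^ κ ≤ g := by
    filter_upwards [(tendsto_rpow_atTop (show 0 < 1 - κ by linarith)).eventually (eventually_ge_atTop (1000 : ℝ)),
      eventually_ge_atTop (1 : ℝ)] with g h3 h4
    calc 1000 * g ^ κ ≤ g ^ (1 - κ) * g ^ κ := mul_le_mul_of_nonneg_right h3 (by positivity)
      _ = g := by rw [← Real.rpow_add (by linarith), sub_add_cancel, Real.rpow_one]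
  obtain ⟨g₀, hg₀⟩ := eventually_atTop.1 (ev1.and (ev2.and (ev3.and ((eventually_ge_atTop (1 : ℝ)).and ev4))))
  refine ⟨g₀, fun g hg a ha haκ hbad => ?_⟩
  obtain ⟨k1, k2, k3, k4, k5⟩ := hg₀ g hg
  unfold LawAll at hbad
  push Not at hbad
  obtain ⟨H, hH1, hH2, l, hl, hfail⟩ := hbad
  have hg0 : 0 < g := by linarith
  have hl0 : 0 < l := by
    have := (abs_le.1 hl).1
    linarith
  have hpi := Real.pi_pos
  have hgz : 0 < g ^ z := Real.rpow_pos_of_pos hg0 _
  have hH0 : 0 < H := hgz.trans_le hH1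
  have hHa : (M r + ε) * a ≤ ε / 2 * H := by
    have h1 := mul_le_mul_of_nonneg_left (k1.trans hH1) (show 0 ≤ ε / 2 by positivity)
    have e : ε / 2 * (2 / ε * ((M r + ε) * g ^ κ)) = (M r + ε) * g ^ κ := by field_simp
    have h2 : (M r + ε) * a ≤ (M r + ε) * g ^ κ := mul_le_mul_of_nonneg_left haκ (by linarith)
    linarith
  have hHa2 : 2 * a ≤ H := by
    have h1 : ε * (2 * a) ≤ ε * H := by nlinarith
    exact le_of_mul_le_mul_left h1 hε
  obtain ⟨w, hw⟩ : ∃ w : ℝ, w = l / (2 * Real.pi) := ⟨_, rfl⟩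
  have hw0 : 0 < w := by rw [hw]; positivity
  have hlaw : ∀ t ε' H' : ℝ, Law r ε' t H' l ↔ |S r t (t + H') l - H' * w * M r| ≤ ε' * (H' * w) := by
    intro t ε' H'
    unfold Law
    have e : H' * l / (2 * Real.pi) = H' * w := by rw [hw]; ring
    rw [e]
  rw [hlaw, abs_le, not_and_or, not_le, not_le] at hfail
  rcases hfail with h1 | h1
  · -- too few pairs
    left
    rintro t ⟨ht1, ht2⟩ hgood
    have ht0 : 0 < t := by linarith
    have hlogt : Real.log t ≤ Real.log g + 1 := by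
      have : t ≤ Real.exp 1 * g := by
        have := Real.add_one_le_exp (1 : ℝ)
        nlinarith
      calc Real.log t ≤ Real.log (Real.exp 1 * g) := Real.log_le_log ht0 this
        _ = Real.log g + 1 := by rw [Real.log_mul (Real.exp_pos 1).ne' hg0.ne', Real.log_exp]; ring
    have hlogt2 : Real.log g ≤ Real.log t := Real.log_le_log hg0 ht1
    have e1 : t ^ y ≤ (2 * g) ^ y := Real.rpow_le_rpow ht0.le (by linarith) hy.le
    have h3 := hgood (H - a) (by linarith) (by linarith) l (by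
      rw [abs_le] at hl ⊢
      constructor <;> linarith)
    rw [hlaw] at h3
    have h4 := (abs_le.1 h3).1
    have h5 : S r t (t + (H - a)) l ≤ S r g (g + H) l := S_mono hr0 l hg0 ht1 (by linarith)
    have h6 : (M r - ε / 2) * (H - a) * w ≤ (M r - ε) * H * w := by nlinarith
    have h7 : (M r + ε) * a * w ≤ ε / 2 * H * w := mul_le_mul_of_nonneg_right hHa hw0.le
    nlinarith [mul_pos (mul_pos hε ha) hw0, mul_nonneg (mul_nonneg hM ha.le) hw0.le]
  · -- too many pairs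
    right
    rintro t ⟨ht1, ht2⟩ hgood
    have ht0 : 0 < t := by linarith
    have hlogt : Real.log g ≤ Real.log t + 1 := by
      have : g ≤ Real.exp 1 * t := by
        have := Real.add_one_le_exp (1 : ℝ)
        nlinarith
      calc Real.log g ≤ Real.log (Real.exp 1 * t) := Real.log_le_log hg0 this
        _ = Real.log t + 1 := by rw [Real.log_mul (Real.exp_pos 1).ne' ht0.ne', Real.log_exp]; ring
    have hlogt2 : Real.log t ≤ Real.log g := Real.log_le_log ht0 ht2.le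
    have e1 : t ^ y ≤ (2 * g) ^ y := Real.rpow_le_rpow ht0.le (by linarith) hy.le
    have h3 := hgood (H + a) (by linarith) (by linarith) l (by
      rw [abs_le] at hl ⊢
      constructor <;> linarith)
    rw [hlaw] at h3
    have h4 := (abs_le.1 h3).2
    have h5 : S r g (g + H) l ≤ S r t (t + (H + a)) l := S_mono hr0 l ht0 ht2.le (by linarith)
    have h7 : (M r + ε) * a * w ≤ ε / 2 * H * w := mul_le_mul_of_nonneg_right hHa hw0.le
    nlinarith [mul_pos (mul_pos hε ha) hw0]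

end Run7.h527.PC
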