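import Pool.Agent.Run7.h527.PC.Thin
import Pool.Agent.N593.DZ.Fin

set_option autoImplicit false

/-! Unions of thin sets, and thin sets and good approximations (helper527). -/

open Filter Topology MeasureTheory Finset

namespace Run7.h527.Thin

open Pool.Agent.N220.CF (FinitelyMet finitely_usual)

lemma card_mono' {S : Finset ℕ} {P Q : ℕ → Prop} {_ : DecidablePred P} {_ : DecidablePred Q} (h : ∀ m ∈ S, P m → Q m) :
    (S.filter P).card ≤ (S.filter Q).card :=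
  card_le_card fun m hm => by
    rw [mem_filter] at hm ⊢
    exact ⟨hm.1, h m hm.1 hm.2⟩

lemma ThinN.mono {E E' : Set ℕ} (h : ThinN E') (hE : ∀ v, 1 ≤ v → v ∈ E → v ∈ E') : ThinN E := by
  classical
  obtain ⟨θ, K, h0, h1, h2⟩ := h
  exact ⟨θ, K, h0, h1, fun X hX => le_trans (Nat.cast_le.2 (card_mono' fun m hm hmE => hE m (mem_Icc.1 hm).1 hmE)) (h2 X hX)⟩

lemma ThinN.union {E E' : Set ℕ} (h : ThinN E) (h' : ThinN E') : ThinN (E ∪ E') := by
  classical
  obtain ⟨θ, K, h0, h1, h2⟩ := h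
  obtain ⟨θ', K', h0', h1', h2'⟩ := h'
  refine ⟨max θ θ', |K| + |K'|, lt_of_lt_of_le h0 (le_max_left _ _), max_lt h1 h1', fun X hX => ?_⟩
  have hX1 : (1 : ℝ) ≤ X := by exact_mod_cast hX
  have e1 : (X : ℝ) ^ θ ≤ (X : ℝ) ^ (max θ θ') := Real.rpow_le_rpow_of_exponent_le hX1 (le_max_left _ _)
  have e2 : (X : ℝ) ^ θ' ≤ (X : ℝ) ^ (max θ θ') := Real.rpow_le_rpow_of_exponent_le hX1 (le_max_right _ _)
  have h3 : (Icc 1 X).filter (fun v => v ∈ E ∪ E') ⊆ (Icc 1 X).filter (fun v => v ∈ E) ∪ (Icc 1 X).filter (fun v => v ∈ E') := by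
    intro v hv
    rw [mem_filter] at hv
    rw [mem_union, mem_filter, mem_filter]
    rcases hv.2 with h4 | h4
    · exact Or.inl ⟨hv.1, h4⟩
    · exact Or.inr ⟨hv.1, h4⟩
  have h4 : (((Icc 1 X).filter (fun v => v ∈ E ∪ E')).card : ℝ) ≤
      (((Icc 1 X).filter (fun v => v ∈ E)).card : ℝ) + (((Icc 1 X).filter (fun v => v ∈ E')).card : ℝ) := by
    exact_mod_cast (card_le_card h3).trans (card_union_le _ _)
  have h5 : (((Icc 1 X).filter (fun v => v ∈ E)).card : ℝ) ≤ |K| * (X : ℝ) ^ (max θ θ') := by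
    refine le_trans (Nat.cast_le.2 (card_mono' fun m _ h => h)) ((h2 X hX).trans ?_)
    exact mul_le_mul (le_abs_self K) e1 (by positivity) (abs_nonneg K)
  have h6 : (((Icc 1 X).filter (fun v => v ∈ E')).card : ℝ) ≤ |K'| * (X : ℝ) ^ (max θ θ') := by
    refine le_trans (Nat.cast_le.2 (card_mono' fun m _ h => h)) ((h2' X hX).trans ?_)
    exact mul_le_mul (le_abs_self K') e2 (by positivity) (abs_nonneg K')
  refine le_trans (Nat.cast_le.2 (card_mono' fun m _ h => h)) (h4.trans ?_)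
  rw [add_mul]
  exact add_le_add h5 h6

lemma thinN_lt (q₀ : ℕ) : ThinN {q : ℕ | q < q₀} := by
  classical
  refine ⟨1 / 2, q₀, by norm_num, by norm_num, fun X hX => ?_⟩
  have hX1 : (1 : ℝ) ≤ (X : ℝ) ^ (1 / 2 : ℝ) := Real.one_le_rpow (by exact_mod_cast hX) (by norm_num)
  have h1 : ((Icc 1 X).filter (fun v => v ∈ {q : ℕ | q < q₀})).card ≤ q₀ := by
    calc _ ≤ (range q₀).card := card_le_card fun v hv => mem_range.2 (mem_filter.1 hv).2
      _ = q₀ := card_range _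
  have h2 : (((Icc 1 X).filter (fun v => v ∈ {q : ℕ | q < q₀})).card : ℝ) ≤ q₀ := by exact_mod_cast h1
  refine le_trans (Nat.cast_le.2 (card_mono' fun m _ h => h)) (h2.trans ?_)
  nlinarith [Nat.cast_nonneg (α := ℝ) q₀]

open Classical in
/-- a thin set has few elements, with every power of the logarithm -/
lemma ThinN.log {E : Set ℕ} (h : ThinN E) (U : ℕ) : ∃ X₀ : ℕ, ∀ X : ℕ, X₀ ≤ X →
    (((Icc 1 X).filter (fun v => v ∈ E)).card : ℝ) ≤ X / (Real.log X) ^ U := by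
  classical
  obtain ⟨θ, K, h0, h1, h2⟩ := h
  have ev1 : ∀ᶠ X : ℕ in atTop, (|K| + 1) * Real.log (X : ℝ) ^ U ≤ (X : ℝ) ^ (1 - θ) := by
    have h1 := (isLittleO_log_rpow_rpow_atTop (U : ℝ) (show 0 < 1 - θ by linarith)).comp_tendsto
      (tendsto_natCast_atTop_atTop (R := ℝ))
    filter_upwards [h1.bound (show (0 : ℝ) < 1 / (|K| + 1) by positivity), eventually_ge_atTop 1] with X h2 h3
    have h3' : (1 : ℝ) ≤ X := by exact_mod_cast h3
    simp only [Function.comp] at h2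
    rw [Real.rpow_natCast, Real.norm_of_nonneg (pow_nonneg (Real.log_nonneg h3') _),
      Real.norm_of_nonneg (by positivity), one_div, inv_mul_eq_div, le_div_iff₀ (by positivity)] at h2
    linarith
  obtain ⟨X₀, hX₀⟩ := eventually_atTop.1 ev1
  refine ⟨max X₀ 3, fun X hX => ?_⟩
  have hX3 : 3 ≤ X := (le_max_right _ _).trans hX
  have hX1 : (3 : ℝ) ≤ X := by exact_mod_cast hX3
  have hX0 : (0 : ℝ) < X := by linarith
  have hl : 0 < Real.log X := Real.log_pos (by linarith)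
  have h3 := hX₀ X ((le_max_left _ _).trans hX)
  have h4 := h2 X (by omega)
  rw [le_div_iff₀ (by positivity)]
  have h5 : (((Icc 1 X).filter (fun v => v ∈ E)).card : ℝ) ≤ (|K| + 1) * (X : ℝ) ^ θ := by
    refine le_trans (Nat.cast_le.2 (card_mono' fun m _ h => h)) (h4.trans ?_)
    exact mul_le_mul_of_nonneg_right (by linarith [le_abs_self K]) (by positivity)
  calc (((Icc 1 X).filter (fun v => v ∈ E)).card : ℝ) * Real.log X ^ U ≤ ((|K| + 1) * (X : ℝ) ^ θ) * Real.log X ^ U :=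
        mul_le_mul_of_nonneg_right h5 (by positivity)
    _ = ((|K| + 1) * Real.log X ^ U) * (X : ℝ) ^ θ := by ring
    _ ≤ (X : ℝ) ^ (1 - θ) * (X : ℝ) ^ θ := mul_le_mul_of_nonneg_right h3 (by positivity)
    _ = X := by rw [← Real.rpow_add hX0, sub_add_cancel, Real.rpow_one]

theorem ThinN.finitely {E : Set ℕ} (h : ThinN E) : FinitelyMet E := by
  classical
  obtain ⟨X₀, hX₀⟩ := h.log 2
  refine finitely_usual E le_rfl ⟨X₀, fun X hX => ?_⟩
  exact le_trans (Nat.cast_le.2 (card_mono' fun m _ h => h)) (hX₀ X hX)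

/-- the neighbourhoods of `G v` may be measured in powers of `G v` -/
lemma near_of {G : ℕ → ℝ} {C κ κ' : ℝ} (hκ0 : 0 ≤ κ) (hκ : κ < κ') (hG : ∀ v : ℕ, 1 ≤ v → G v ≤ C * v)
    (hG0 : ∃ v₀ : ℕ, ∀ v : ℕ, v₀ ≤ v → 0 < G v) : ∃ q₀ : ℕ, ∀ q : ℕ, q₀ ≤ q → G q ^ κ ≤ (q : ℝ) ^ κ' := by
  obtain ⟨v₀, hv₀⟩ := hG0
  have h1 := (tendsto_rpow_atTop (show 0 < κ' - κ by linarith)).comp (tendsto_natCast_atTop_atTop (R := ℝ))
  obtain ⟨q₀, hq₀⟩ := eventually_atTop.1 (h1.eventually (eventually_ge_atTop (|C| ^ κ)))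
  refine ⟨max (max q₀ v₀) 1, fun q hq => ?_⟩
  have hq1 : q₀ ≤ q := ((le_max_left _ _).trans (le_max_left _ _)).trans hq
  have hq2 : v₀ ≤ q := ((le_max_right _ _).trans (le_max_left _ _)).trans hq
  have hq3 : 1 ≤ q := (le_max_right _ _).trans hq
  have hq0 : (0 : ℝ) < q := by exact_mod_cast hq3
  have h2 := hq₀ q hq1
  simp only [Function.comp] at h2
  calc G q ^ κ ≤ (|C| * q) ^ κ := Real.rpow_le_rpow (hv₀ q hq2).le
        ((hG q hq3).trans (mul_le_mul_of_nonneg_right (le_abs_self C) hq0.le)) hκ0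
    _ = |C| ^ κ * (q : ℝ) ^ κ := Real.mul_rpow (abs_nonneg C) hq0.le
    _ ≤ (q : ℝ) ^ (κ' - κ) * (q : ℝ) ^ κ := mul_le_mul_of_nonneg_right h2 (by positivity)
    _ = (q : ℝ) ^ κ' := by rw [← Real.rpow_add hq0, sub_add_cancel]

end Run7.h527.Thin
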