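import Pool.Agent.Run7.h527.PC.Sep
import Pool.Agent.Run7.h527.PC.ThinU

set_option autoImplicit false

/-! The exceptional sets of integers for the pair correlation law (helper527). -/

open Filter Topology MeasureTheory

namespace Run7.h527.PC

open Pool.Agent.N220.CF (FinitelyMet)
open Pool.Agent.N593.DZ (large)
open Run7.h527.Thin (ThinN thin_near near_of)

/-- the law at all `t` near `g` -/
def LawNear (r : ℝ → ℝ) (ε η κ c g : ℝ) : Prop := ∀ t : ℝ, |t - g| ≤ g ^ κ → LawAll r ε η c 40 t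

/-- the `v` with a failure near `G v` -/
def BadV (G : ℕ → ℝ) (r : ℝ → ℝ) (ε η κ c : ℝ) : Set ℕ := {v : ℕ | ∃ t : ℝ, |t - G v| ≤ (v : ℝ) ^ κ ∧ ¬ LawAll r ε η c 40 t}

theorem thin_nonneg (hRH : RiemannHypothesis) {η μ ε κ : ℝ} (hη0 : 0 < η) (hη1 : η < 1) (hμ : 0 < μ)
    (hgap : 2 * μ < 1 + η) (hε : 0 < ε) (hκ0 : 0 ≤ κ) (hκ : κ < η) {r : ℝ → ℝ} (hr : Test μ r) (hr0 : ∀ x, 0 ≤ r x)
    (c : ℝ) {G : ℕ → ℝ} {a C : ℝ} (ha : 0 < a) (h : ∀ v : ℕ, 1 ≤ v → a ≤ G (v + 1) - G v)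
    (hG : ∀ v : ℕ, 1 ≤ v → G v ≤ C * v) : ThinN (BadV G r ε η κ c) := by
  obtain ⟨y, hy⟩ : ∃ y : ℝ, y = max (η / 2) (μ - 1 / 2 + η / 2) := ⟨_, rfl⟩
  have hy0 : 0 < y := by rw [hy]; exact lt_of_lt_of_le (by linarith) (le_max_left _ _)
  have hyη : y < η := by rw [hy]; exact max_lt (by linarith) (by linarith)
  have hygap : 2 * μ < 1 + y := by
    have : μ - 1 / 2 + η / 2 ≤ y := by rw [hy]; exact le_max_right _ _
    linarith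
  obtain ⟨δ, hδ, T0, -, hB⟩ := few hRH hy0 (by linarith) hμ hygap (show 0 < ε / 2 by positivity) hr (c + 1)
  exact thin_near (κ' := (κ + η) / 2) ⟨δ, hδ, T0, hB⟩
    (spreads hr.dec hr0 (c := c) hε hy0 hyη (by linarith) (by linarith)) hκ0 (by linarith) (by linarith) ha h hG

/-- **Few exceptional integers.** -/
theorem thin_law (hRH : RiemannHypothesis) {η μ ε κ : ℝ} (hη0 : 0 < η) (hη1 : η < 1) (hμ : 0 < μ)
    (hgap : 2 * μ < 1 + η) (hε : 0 < ε) (hκ0 : 0 ≤ κ) (hκ : κ < η) {r : ℝ → ℝ} (hr : Test μ r) (c : ℝ)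
    {G : ℕ → ℝ} {a C : ℝ} (ha : 0 < a) (h : ∀ v : ℕ, 1 ≤ v → a ≤ G (v + 1) - G v) (hG : ∀ v : ℕ, 1 ≤ v → G v ≤ C * v) :
    ThinN (BadV G r ε η κ c) := by
  obtain ⟨K, hKt, hK⟩ := exists_kernel hμ
  have hK0 : ∀ x, 0 ≤ K x := fun x => le_trans (by positivity) (hK x)
  obtain ⟨k, hk, hrk⟩ := majorant hr hK
  have he : 0 < ε / (1 + k) := by positivity
  -- `t` is positive for large `v`
  have hpos : ∃ q₀ : ℕ, ∀ q : ℕ, q₀ ≤ q → 1 ≤ q ∧ (q : ℝ) ^ κ < G q := by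
    have ev3 : ∀ᶠ X : ℕ in atTop, (X : ℝ) ^ κ ≤ a / 4 * X := by
      have h1 := (tendsto_rpow_atTop (show 0 < 1 - κ by linarith)).comp (tendsto_natCast_atTop_atTop (R := ℝ))
      filter_upwards [h1.eventually (eventually_ge_atTop (4 / a)), eventually_ge_atTop 1] with X h2 h3
      have hX0 : (0 : ℝ) < X := by exact_mod_cast h3
      simp only [Function.comp] at h2
      have h4 := mul_le_mul_of_nonneg_right h2 (show 0 ≤ (X : ℝ) ^ κ by positivity)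
      rw [← Real.rpow_add hX0, sub_add_cancel, Real.rpow_one] at h4
      calc (X : ℝ) ^ κ = a / 4 * (4 / a * (X : ℝ) ^ κ) := by field_simp
        _ ≤ a / 4 * X := mul_le_mul_of_nonneg_left h4 (by positivity)
    have ev5 : ∀ᶠ X : ℕ in atTop, |G 1| + a + 1 ≤ a / 4 * (X : ℝ) :=
      (tendsto_natCast_atTop_atTop.const_mul_atTop (by positivity)).eventually (eventually_ge_atTop _)
    obtain ⟨q₀, hq₀⟩ := eventually_atTop.1 (ev3.and (ev5.and (eventually_ge_atTop 1)))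
    refine ⟨q₀, fun q hq => ?_⟩
    obtain ⟨g1, g2, g3⟩ := hq₀ q hq
    have h4 := Run7.h527.Thin.step_sum h (le_refl 1) g3
    rw [Nat.cast_one] at h4
    have h5 := neg_abs_le (G 1)
    have hq0 : (0 : ℝ) < q := by exact_mod_cast g3
    refine ⟨g3, ?_⟩
    nlinarith
  obtain ⟨q₀, hq₀⟩ := hpos
  refine (((thin_nonneg hRH hη0 hη1 hμ hgap he hκ0 hκ (hr.lin hKt k) (fun x => by
    have := (abs_le.1 (hrk x)).1
    show 0 ≤ r x + k * K x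
    linarith) c ha h hG).union (thin_nonneg hRH hη0 hη1 hμ hgap he hκ0 hκ hKt hK0 c ha h hG)).union
      (Run7.h527.Thin.thinN_lt q₀)).mono fun q _ hq => ?_
  rcases lt_or_ge q q₀ with hq1 | hq1
  · exact Or.inr hq1
  left
  obtain ⟨t, ht, hq⟩ := hq
  by_contra hcon
  rw [Set.mem_union, not_or] at hcon
  obtain ⟨h1, h2⟩ := hcon
  have h1' : LawAll (fun x => r x + k * K x) (ε / (1 + k)) η c 40 t := by
    by_contra h3
    exact h1 ⟨t, ht, h3⟩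
  have h2' : LawAll K (ε / (1 + k)) η c 40 t := by
    by_contra h3
    exact h2 ⟨t, ht, h3⟩
  apply hq
  intro H hH1 hH2 l hl
  have htp : 0 < t := by
    have := (abs_le.1 ht).1
    linarith [(hq₀ q hq1).2]
  have h3 := law_sub hr.dec hKt.dec hk htp (h1' H hH1 hH2 l hl) (h2' H hH1 hH2 l hl)
  have e : (1 + k) * (ε / (1 + k)) = ε := by field_simp
  rw [e] at h3
  exact h3

/-- the exceptional sets, a countable family -/
def W (G : ℕ → ℝ) (i : (ℚ × ℚ × ℚ) × (ℕ × ℕ × ℕ) × ℕ × ℕ) : Set ℕ :=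
  {q : ℕ | (0 < (i.1.1 : ℝ) ∧ 0 < (i.1.2.1 : ℝ) ∧ (i.1.2.1 : ℝ) < 1 ∧ 2 * (i.1.1 : ℝ) < 1 + (i.1.2.1 : ℝ) ∧
    0 ≤ (i.1.2.2 : ℝ) ∧ (i.1.2.2 : ℝ) < i.1.2.1 ∧ 1 ≤ (i.2.1.2.2 : ℝ)) ∧
    q ∈ (BadV G (fam i.1.1 i.2.1.1 i.2.1.2.1) (1 / ((i.2.2.1 : ℝ) + 1)) i.1.2.1 i.1.2.2 i.2.2.2 ∪
      BadV G (ker i.1.1) 1 i.1.2.1 i.1.2.2 i.2.2.2) ∪
      BadV G (fun x => ker i.1.1 (x / (i.2.1.2.2 : ℝ))) 1 i.1.2.1 i.1.2.2 i.2.2.2}

lemma thin_W (hRH : RiemannHypothesis) {G : ℕ → ℝ} {a C : ℝ} (ha : 0 < a)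
    (h : ∀ v : ℕ, 1 ≤ v → a ≤ G (v + 1) - G v) (hG : ∀ v : ℕ, 1 ≤ v → G v ≤ C * v)
    (i : (ℚ × ℚ × ℚ) × (ℕ × ℕ × ℕ) × ℕ × ℕ) : ThinN (W G i) := by
  obtain ⟨⟨μ, η, κ⟩, ⟨C', n, X⟩, k, c⟩ := i
  by_cases hcase : 0 < (μ : ℝ) ∧ 0 < (η : ℝ) ∧ (η : ℝ) < 1 ∧ 2 * (μ : ℝ) < 1 + (η : ℝ) ∧ 0 ≤ (κ : ℝ) ∧ (κ : ℝ) < η ∧
    1 ≤ (X : ℝ)
  · obtain ⟨c1, c2, c3, c4, c6, c7, c5⟩ := hcase
    exact (((thin_law hRH c2 c3 c1 c4 (show (0 : ℝ) < 1 / ((k : ℝ) + 1) by positivity) c6 c7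
      (fam_test (Nat.cast_nonneg C') n).1 (c : ℝ) ha h hG).union
      (thin_law hRH c2 c3 c1 c4 one_pos c6 c7 (ker_test c1) (c : ℝ) ha h hG)).union
      (thin_law hRH c2 c3 c1 c4 one_pos c6 c7 (ker_dil c1 c5) (c : ℝ) ha h hG)).mono fun q _ hq => hq.2
  · refine (Run7.h527.Thin.thinN_lt 0).mono fun q _ hq => ?_
    exact absurd hq.1 hcase

/-- **The law fails near `G q` only for the `q` in a set of the countable family.** -/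
lemma not_law {G : ℕ → ℝ} {a C : ℝ} (ha : 0 < a) (h : ∀ v : ℕ, 1 ≤ v → a ≤ G (v + 1) - G v)
    (hG : ∀ v : ℕ, 1 ≤ v → G v ≤ C * v)
    {η μ ε κ c : ℝ} (hη0 : 0 < η) (hη1 : η < 1) (hμ : 0 < μ) (hgap : μ < (1 + η) / 2) (hκ : κ < η)
    (hε : 0 < ε) {r : ℝ → ℝ} (hr : Test μ r) :
    ∃ i : (ℚ × ℚ × ℚ) × (ℕ × ℕ × ℕ) × ℕ × ℕ, ∃ q₀ : ℕ, ∀ q : ℕ, q₀ ≤ q → ¬ LawNear r ε η κ c (G q) → q ∈ W G i := by
  obtain ⟨κ₁, hκ₁⟩ : ∃ κ₁ : ℝ, κ₁ = max κ 0 := ⟨_, rfl⟩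
  have hκ₁0 : 0 ≤ κ₁ := by rw [hκ₁]; exact le_max_right _ _
  have hκκ : κ ≤ κ₁ := by rw [hκ₁]; exact le_max_left _ _
  have hκ₁η : κ₁ < η := by rw [hκ₁]; exact max_lt hκ hη0
  obtain ⟨w, hw1, hw2⟩ := exists_rat_btwn hκ₁η
  obtain ⟨z, hz1, hz2⟩ := exists_rat_btwn (show max (w : ℝ) (2 * μ - 1) < η from max_lt hw2 (by linarith))
  have hzw : (w : ℝ) < z := (le_max_left _ _).trans_lt hz1
  have hw0 : (0 : ℝ) < w := by linarith
  have hz0 : (0 : ℝ) < z := by linarith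
  have hz3 : 2 * μ - 1 < z := (le_max_right _ _).trans_lt hz1
  obtain ⟨ν, hν1, hν2⟩ := exists_rat_btwn (show μ < (1 + (z : ℝ)) / 2 by linarith)
  have hν0 : (0 : ℝ) < ν := by linarith
  obtain ⟨k, hk⟩ := exists_nat_one_div_lt (show 0 < ε / 4 by positivity)
  obtain ⟨c', hc'⟩ := exists_nat_ge c
  obtain ⟨C', n, X, hX, happ⟩ := approx hν0 (hr.ext hν1.le) hε
  obtain ⟨q₀, hq₀⟩ := large ha h (max (3 : ℝ) (2 * Real.exp (|c| + 1)))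
  obtain ⟨v₀, hv₀⟩ := large ha h 1
  obtain ⟨q₁, hq₁⟩ := near_of hκ₁0 hw1 hG ⟨v₀, fun v hv => by linarith [hv₀ v hv]⟩
  obtain ⟨Y, hY⟩ := eventually_atTop.1 (((tendsto_rpow_atTop (show 0 < 1 - κ₁ by linarith)).eventually
    (eventually_ge_atTop (2 : ℝ))).and (eventually_ge_atTop (1 : ℝ)))
  obtain ⟨q₂, hq₂⟩ := large ha h Y
  refine ⟨((ν, z, w), (C', n, X), k, c'), max (max q₀ q₁) q₂, fun q hq hbad => ?_⟩
  have hGm := hq₀ q (((le_max_left _ _).trans (le_max_left _ _)).trans hq)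
  have hGκ := hq₁ q (((le_max_right _ _).trans (le_max_left _ _)).trans hq)
  obtain ⟨hY1, hY2⟩ := hY (G q) (hq₂ q ((le_max_right _ _).trans hq))
  have hG3 : 3 ≤ G q := (le_max_left _ _).trans hGm
  have hGc : 2 * Real.exp (|c| + 1) ≤ G q := (le_max_right _ _).trans hGm
  have hG0 : 0 < G q := by linarith
  unfold LawNear at hbad
  push Not at hbad
  obtain ⟨t, ht, hbad⟩ := hbad
  have hpow : G q ^ κ ≤ G q ^ κ₁ := Real.rpow_le_rpow_of_exponent_le (by linarith) hκκ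
  have ht' : |t - G q| ≤ G q / 2 := by
    refine (ht.trans hpow).trans ?_
    have h4 := mul_le_mul_of_nonneg_right hY1 (show 0 ≤ G q ^ κ₁ by positivity)
    rw [← Real.rpow_add hG0, sub_add_cancel, Real.rpow_one] at h4
    linarith
  have ht1 : G q / 2 ≤ t := by linarith [(abs_le.1 ht').1]
  have htw : |t - G q| ≤ (q : ℝ) ^ (w : ℝ) := (ht.trans hpow).trans hGκ
  have ht2 : Real.exp (|c| + 1) ≤ t := by linarith
  have ht3 : 1 ≤ t := by linarith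
  have htp : 0 < t := by linarith
  refine ⟨⟨hν0, hz0, by linarith, by linarith, hw0.le, hzw, by exact_mod_cast hX⟩, ?_⟩
  by_contra hgood
  rw [Set.mem_union, Set.mem_union, not_or, not_or] at hgood
  obtain ⟨⟨g1, g2⟩, g3⟩ := hgood
  apply hbad
  have g1' : LawAll (fam (ν : ℝ) (C' : ℝ) n) (1 / ((k : ℝ) + 1)) z c' 40 t := by
    by_contra h3
    exact g1 ⟨t, htw, h3⟩
  have g2' : LawAll (ker (ν : ℝ)) 1 z c' 40 t := by
    by_contra h3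
    exact g2 ⟨t, htw, h3⟩
  have g3' : LawAll (fun x => ker (ν : ℝ) (x / (X : ℝ))) 1 z c' 40 t := by
    by_contra h3
    exact g3 ⟨t, htw, h3⟩
  intro H hH1 hH2 l hl
  have hlog : |c| + 1 ≤ Real.log t := (Real.le_log_iff_exp_le htp).2 ht2
  have hl0 : 0 ≤ l := by
    have := (abs_le.1 hl).1
    linarith [le_abs_self c]
  have hH0 : 0 < H := lt_of_lt_of_le (Real.rpow_pos_of_pos htp _) hH1
  have hH1' : t ^ (z : ℝ) ≤ H := (Real.rpow_le_rpow_of_exponent_le ht3 hz2.le).trans hH1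
  have hl' : |l - Real.log t| ≤ c' := hl.trans hc'
  have hpi := Real.pi_pos
  have hm : 0 ≤ H * l / (2 * Real.pi) := by positivity
  refine happ t H l htp hm ?_ (g2' H hH1' hH2 l hl') (g3' H hH1' hH2 l hl')
  exact (g1' H hH1' hH2 l hl').trans (mul_le_mul_of_nonneg_right hk.le hm)

end Run7.h527.PC
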