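import Pool.Agent.Run7.h527.PC.A

set_option autoImplicit false

/-! A positive majorant with compactly supported transform (helper527). -/

open Filter Topology MeasureTheory

namespace Run7.h527.PC

/-- `sinh (2π (a - |α|))` on `[-a, a]` -/
noncomputable def ks (a α : ℝ) : ℝ := Real.sinh (2 * Real.pi * max 0 (a - |α|))

lemma sinh_lip {c u v : ℝ} (hu : 0 ≤ u) (hu2 : u ≤ c) (hv : 0 ≤ v) (hv2 : v ≤ c) :
    |Real.sinh u - Real.sinh v| ≤ Real.cosh c * |u - v| := by
  have h := Convex.norm_image_sub_le_of_norm_deriv_le (f := Real.sinh) (s := Set.Icc 0 c) (x := v) (y := u)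
    (C := Real.cosh c) (fun x _ => Real.differentiable_sinh x) (fun x hx => by
      rw [Real.deriv_sinh, Real.norm_eq_abs, abs_of_pos (Real.cosh_pos x), Real.cosh_le_cosh, abs_of_nonneg hx.1,
        abs_of_nonneg (hx.1.trans hx.2)]
      exact hx.2) (convex_Icc _ _) ⟨hv, hv2⟩ ⟨hu, hu2⟩
  exact h

lemma ks_lip {a : ℝ} (ha : 0 < a) (x y : ℝ) :
    |ks a x - ks a y| ≤ Real.cosh (2 * Real.pi * a) * (2 * Real.pi) * |x - y| := by
  have hpi := Real.pi_pos
  have h0 : ∀ z : ℝ, 0 ≤ max 0 (a - |z|) := fun z => le_max_left _ _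
  have h1 : ∀ z : ℝ, max 0 (a - |z|) ≤ a := fun z => max_le ha.le (by linarith [abs_nonneg z])
  unfold ks
  refine (sinh_lip (c := 2 * Real.pi * a) (mul_nonneg (by positivity) (h0 x))
    (mul_le_mul_of_nonneg_left (h1 x) (by positivity)) (mul_nonneg (by positivity) (h0 y))
    (mul_le_mul_of_nonneg_left (h1 y) (by positivity))).trans ?_
  rw [mul_assoc (Real.cosh _)]
  apply mul_le_mul_of_nonneg_left _ (Real.cosh_pos _).le
  rw [← mul_sub, abs_mul, abs_of_pos (by positivity : 0 < 2 * Real.pi)]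
  apply mul_le_mul_of_nonneg_left _ (by positivity)
  have h2 : |max 0 (a - |x|) - max 0 (a - |y|)| ≤ |(a - |x|) - (a - |y|)| := by
    rw [max_comm 0, max_comm 0]
    exact abs_max_sub_max_le_abs _ _ _
  refine h2.trans ?_
  have h3 : (a - |x|) - (a - |y|) = -(|x| - |y|) := by ring
  rw [h3, abs_neg]
  exact abs_abs_sub_abs_le x y

lemma ks_int {a : ℝ} (ha : 0 < a) (x : ℝ) : ∫ α in (-a)..a, ks a α * Real.cos (2 * Real.pi * α * x) =
    (Real.cosh (2 * Real.pi * a) - Real.cos (2 * Real.pi * a * x)) / (Real.pi * (1 + x ^ 2)) := by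
  have hpi := Real.pi_pos
  have hcont : Continuous fun α : ℝ => ks a α * Real.cos (2 * Real.pi * α * x) := by
    have : Continuous (ks a) := lip_cont (ks_lip ha)
    exact this.mul (by fun_prop)
  rw [H370.A2.int_sym (fun α => ks a α * Real.cos (2 * Real.pi * α * x)) hcont a]
  have h1 : ∀ α ∈ Set.uIcc (0 : ℝ) a, (ks a α * Real.cos (2 * Real.pi * α * x) +
      ks a (-α) * Real.cos (2 * Real.pi * (-α) * x)) =
      2 * (Real.sinh (2 * Real.pi * (a - α)) * Real.cos (2 * Real.pi * α * x)) := by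
    intro α hα
    rw [Set.uIcc_of_le ha.le] at hα
    unfold ks
    rw [abs_neg, abs_of_nonneg hα.1, max_eq_right (by linarith [hα.2])]
    have e : 2 * Real.pi * (-α) * x = -(2 * Real.pi * α * x) := by ring
    rw [e, Real.cos_neg]
    ring
  rw [intervalIntegral.integral_congr h1]
  have h2 : ∀ α ∈ Set.uIcc (0 : ℝ) a, HasDerivAt (fun α : ℝ => (-Real.cosh (2 * Real.pi * (a - α)) *
      Real.cos (2 * Real.pi * α * x) + x * (Real.sinh (2 * Real.pi * (a - α)) * Real.sin (2 * Real.pi * α * x))) /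
        (Real.pi * (1 + x ^ 2)))
      (2 * (Real.sinh (2 * Real.pi * (a - α)) * Real.cos (2 * Real.pi * α * x))) α := by
    intro α _
    have d1 : HasDerivAt (fun α : ℝ => 2 * Real.pi * (a - α)) (2 * Real.pi * (-1)) α := by
      simpa using ((hasDerivAt_id α).const_sub a).const_mul (2 * Real.pi)
    have d2 : HasDerivAt (fun α : ℝ => 2 * Real.pi * α * x) (2 * Real.pi * x) α := by
      simpa using (((hasDerivAt_id α).const_mul (2 * Real.pi)).mul_const x)
    have d3 := d1.cosh
    have d4 := d1.sinh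
    have d5 := d2.cos
    have d6 := d2.sin
    have d7 := ((d3.neg.mul d5).add ((d4.mul d6).const_mul x)).div_const (Real.pi * (1 + x ^ 2))
    refine d7.congr_deriv ?_
    simp only [Pi.neg_apply]
    field_simp
    ring
  rw [intervalIntegral.integral_eq_sub_of_hasDerivAt h2
    ((by fun_prop : Continuous fun α : ℝ => 2 * (Real.sinh (2 * Real.pi * (a - α)) *
      Real.cos (2 * Real.pi * α * x))).intervalIntegrable _ _)]
  simp only [sub_self, mul_zero, Real.cosh_zero, Real.sinh_zero, zero_mul, Real.cos_zero, Real.sin_zero, sub_zero,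
    mul_one, add_zero]
  field_simp
  ring

/-- **A positive majorant** -/
theorem exists_kernel {μ : ℝ} (hμ : 0 < μ) : ∃ K : ℝ → ℝ, Test μ K ∧ ∀ x, 1 / (1 + x ^ 2) ≤ K x := by
  have hpi := Real.pi_pos
  have hc : 1 < Real.cosh (2 * Real.pi * μ) := Real.one_lt_cosh.2 (by positivity)
  obtain ⟨c, hcd⟩ : ∃ c : ℝ, c = Real.pi / (Real.cosh (2 * Real.pi * μ) - 1) := ⟨_, rfl⟩
  have hc0 : 0 < c := by
    rw [hcd]
    exact div_pos hpi (by linarith)
  have hform : ∀ x, ∫ α in (-μ)..μ, (c * ks μ α) * Real.cos (2 * Real.pi * α * x) =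
      c * ((Real.cosh (2 * Real.pi * μ) - Real.cos (2 * Real.pi * μ * x)) / (Real.pi * (1 + x ^ 2))) := by
    intro x
    rw [← ks_int hμ x, ← intervalIntegral.integral_const_mul]
    refine intervalIntegral.integral_congr fun α _ => ?_
    show (c * ks μ α) * Real.cos (2 * Real.pi * α * x) = c * (ks μ α * Real.cos (2 * Real.pi * α * x))
    ring
  refine ⟨fun x => ∫ α in (-μ)..μ, (c * ks μ α) * Real.cos (2 * Real.pi * α * x),
    ⟨fun α => c * ks μ α, ⟨c * (Real.cosh (2 * Real.pi * μ) * (2 * Real.pi)), fun x y => ?_⟩, fun x hx => ?_,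
      fun x => rfl, c * ((Real.cosh (2 * Real.pi * μ) + 1) / Real.pi), fun x => ?_⟩, fun x => ?_⟩
  · rw [← mul_sub, abs_mul, abs_of_pos hc0, mul_assoc c]
    exact mul_le_mul_of_nonneg_left (ks_lip hμ x y) hc0.le
  · show c * ks μ x = 0
    unfold ks
    rw [max_eq_left (by linarith), mul_zero, Real.sinh_zero, mul_zero]
  · show |∫ α in (-μ)..μ, (c * ks μ α) * Real.cos (2 * Real.pi * α * x)| * x ^ 2 ≤ _
    rw [hform x]
    have h1 : 0 ≤ Real.cosh (2 * Real.pi * μ) - Real.cos (2 * Real.pi * μ * x) := by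
      linarith [Real.cos_le_one (2 * Real.pi * μ * x)]
    rw [abs_of_nonneg (by positivity), mul_assoc]
    apply mul_le_mul_of_nonneg_left _ hc0.le
    rw [div_mul_eq_mul_div, div_le_div_iff₀ (by positivity) hpi]
    have h2 : Real.cosh (2 * Real.pi * μ) - Real.cos (2 * Real.pi * μ * x) ≤ Real.cosh (2 * Real.pi * μ) + 1 := by
      linarith [Real.neg_one_le_cos (2 * Real.pi * μ * x)]
    have h3 : (Real.cosh (2 * Real.pi * μ) - Real.cos (2 * Real.pi * μ * x)) * (x ^ 2 * Real.pi) ≤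
        (Real.cosh (2 * Real.pi * μ) + 1) * ((1 + x ^ 2) * Real.pi) := by
      apply mul_le_mul h2 _ (by positivity) (by linarith)
      nlinarith
    linarith
  · show _ ≤ ∫ α in (-μ)..μ, (c * ks μ α) * Real.cos (2 * Real.pi * α * x)
    rw [hform x, ← mul_div_assoc, div_le_div_iff₀ (by positivity) (by positivity), one_mul]
    have h2 : Real.cosh (2 * Real.pi * μ) - 1 ≤ Real.cosh (2 * Real.pi * μ) - Real.cos (2 * Real.pi * μ * x) := by
      linarith [Real.cos_le_one (2 * Real.pi * μ * x)]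
    have h3 : Real.pi = c * (Real.cosh (2 * Real.pi * μ) - 1) := by
      rw [hcd, div_mul_cancel₀]
      linarith
    calc Real.pi * (1 + x ^ 2) = c * (Real.cosh (2 * Real.pi * μ) - 1) * (1 + x ^ 2) := by rw [← h3]
      _ ≤ c * (Real.cosh (2 * Real.pi * μ) - Real.cos (2 * Real.pi * μ * x)) * (1 + x ^ 2) :=
          mul_le_mul_of_nonneg_right (mul_le_mul_of_nonneg_left h2 hc0.le) (by positivity)

end Run7.h527.PC
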