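import Pool.Agent.Run7.h527.PC.D

set_option autoImplicit false

/-! A countable family of test functions (helper527). -/

open Filter Topology MeasureTheory

namespace Run7.h527.PC

lemma test_zero (μ : ℝ) : Test μ (fun _ => 0) :=
  ⟨fun _ => 0, ⟨0, fun x y => by simp⟩, fun x _ => rfl, fun x => by simp, 0, fun x => by simp⟩

/-- the test functions with a given bound are separable for the uniform convergence on bounded sets -/
theorem exists_seq (μ C : ℝ) (hC : 0 ≤ C) : ∃ f : ℕ → ℝ → ℝ, (∀ n, Test μ (f n) ∧ ∀ x, |f n x| * x ^ 2 ≤ C) ∧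
    ∀ r : ℝ → ℝ, Test μ r → (∀ x, |r x| * x ^ 2 ≤ C) → ∀ X κ : ℝ, 0 < κ → ∃ n, ∀ x, |x| ≤ X → |r x - f n x| ≤ κ := by
  obtain ⟨A, hA⟩ : ∃ A : Set C(ℝ, ℝ), A = {g : C(ℝ, ℝ) | Test μ g ∧ ∀ x, |g x| * x ^ 2 ≤ C} := ⟨_, rfl⟩
  have hmem : ∀ g : C(ℝ, ℝ), g ∈ A ↔ Test μ g ∧ ∀ x, |g x| * x ^ 2 ≤ C := fun g => by rw [hA]; rfl
  have h0 : (0 : C(ℝ, ℝ)) ∈ A := by
    rw [hmem]
    exact ⟨test_zero μ, fun x => by simpa using hC⟩
  haveI : Nonempty A := ⟨⟨0, h0⟩⟩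
  haveI : TopologicalSpace.SeparableSpace A := inferInstance
  refine ⟨fun n => ((TopologicalSpace.denseSeq A n : A) : C(ℝ, ℝ)), fun n => (hmem _).1 (TopologicalSpace.denseSeq A n).2,
    fun r hr hrC X κ hκ => ?_⟩
  obtain ⟨R, hR⟩ : ∃ R : C(ℝ, ℝ), ∀ x, R x = r x := ⟨⟨r, hr.dec.1⟩, fun x => rfl⟩
  have hRr : (R : ℝ → ℝ) = r := funext hR
  have hRA : R ∈ A := by
    rw [hmem, hRr]
    exact ⟨hr, hrC⟩
  have hopen : IsOpen {g : A | Set.MapsTo (R - (g : C(ℝ, ℝ))) (Set.Icc (-X) X) (Metric.ball 0 κ)} := by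
    have h1 : IsOpen {f : C(ℝ, ℝ) | Set.MapsTo f (Set.Icc (-X) X) (Metric.ball (0 : ℝ) κ)} :=
      ContinuousMap.isOpen_setOf_mapsTo isCompact_Icc Metric.isOpen_ball
    exact h1.preimage (continuous_const.sub continuous_subtype_val)
  obtain ⟨n, hn⟩ := (TopologicalSpace.denseRange_denseSeq A).exists_mem_open hopen ⟨⟨R, hRA⟩, fun x _ => by simpa using hκ⟩
  refine ⟨n, fun x hx => ?_⟩
  have h2 := hn (Set.mem_Icc.2 (abs_le.1 hx))
  rw [Metric.mem_ball, dist_zero_right, Real.norm_eq_abs] at h2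
  rw [← hR x]
  exact h2.le

/-- a kernel for each bandwidth -/
noncomputable def ker (μ : ℝ) : ℝ → ℝ := if h : 0 < μ then (exists_kernel h).choose else fun _ => 0

lemma ker_test {μ : ℝ} (h : 0 < μ) : Test μ (ker μ) := by
  unfold ker
  rw [dif_pos h]
  exact (exists_kernel h).choose_spec.1

lemma ker_ge {μ : ℝ} (h : 0 < μ) (x : ℝ) : 1 / (1 + x ^ 2) ≤ ker μ x := by
  unfold ker
  rw [dif_pos h]
  exact (exists_kernel h).choose_spec.2 x

lemma ker_dil {μ X : ℝ} (h : 0 < μ) (hX : 1 ≤ X) : Test μ (fun x => ker μ (x / X)) :=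
  ((ker_test h).dil (by linarith)).ext (by
    rw [div_le_iff₀ (by linarith)]
    nlinarith)

lemma ker_nonneg {μ : ℝ} (h : 0 < μ) (x : ℝ) : 0 ≤ ker μ x := le_trans (by positivity) (ker_ge h x)

/-- the countable family -/
noncomputable def fam (μ C : ℝ) : ℕ → ℝ → ℝ := if h : 0 ≤ C then (exists_seq μ C h).choose else fun _ _ => 0

lemma fam_test {μ C : ℝ} (h : 0 ≤ C) (n : ℕ) : Test μ (fam μ C n) ∧ ∀ x, |fam μ C n x| * x ^ 2 ≤ C := by
  unfold fam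
  rw [dif_pos h]
  exact (exists_seq μ C h).choose_spec.1 n

lemma fam_dense {μ C : ℝ} (h : 0 ≤ C) {r : ℝ → ℝ} (hr : Test μ r) (hC : ∀ x, |r x| * x ^ 2 ≤ C) (X : ℝ) {κ : ℝ}
    (hκ : 0 < κ) : ∃ n, ∀ x, |x| ≤ X → |r x - fam μ C n x| ≤ κ := by
  unfold fam
  rw [dif_pos h]
  exact (exists_seq μ C h).choose_spec.2 r hr hC X κ hκ

/-- **Approximation of all laws by countably many laws.** -/
theorem approx {μ : ℝ} (hμ : 0 < μ) {r : ℝ → ℝ} (hr : Test μ r) {ε : ℝ} (hε : 0 < ε) :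
    ∃ C n X : ℕ, 1 ≤ X ∧ ∀ t H l : ℝ, 0 < t → 0 ≤ H * l / (2 * Real.pi) → Law (fam μ C n) (ε / 4) t H l →
      Law (ker μ) 1 t H l → Law (fun x => ker μ (x / X)) 1 t H l → Law r ε t H l := by
  obtain ⟨C', hC'⟩ : ∃ C : ℝ, ∀ x, |r x| * x ^ 2 ≤ C := by
    obtain ⟨-, C, hC⟩ := hr.dec
    exact ⟨C, fun x => le_trans (mul_le_mul_of_nonneg_left (by linarith) (abs_nonneg _)) (hC x)⟩
  obtain ⟨C, hC⟩ := exists_nat_ge C'
  have hrC : ∀ x, |r x| * x ^ 2 ≤ C := fun x => (hC' x).trans hC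
  have hC0 : (0 : ℝ) ≤ C := Nat.cast_nonneg _
  obtain ⟨X₀, hX₀, hX⟩ := choose_X (ker_test hμ) (ker_nonneg hμ) hC0 (show 0 < ε / 16 by positivity)
  obtain ⟨X, hXX⟩ := exists_nat_ge X₀
  have hX1 : (1 : ℝ) ≤ X := hX₀.trans hXX
  replace hX := hX X hXX
  have hMK : 0 ≤ M (ker μ) := M_nonneg (ker_test hμ).dec (ker_nonneg hμ)
  obtain ⟨κ, hκ⟩ : ∃ κ : ℝ, κ = ε / (16 * ((1 + (X : ℝ) ^ 2) * (M (ker μ) + 1))) := ⟨_, rfl⟩
  have hκ0 : 0 < κ := by rw [hκ]; positivity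
  have hκ1 : κ * (1 + (X : ℝ) ^ 2) * (M (ker μ) + 1) ≤ ε / 16 := by
    rw [hκ, mul_assoc]
    apply le_of_eq
    field_simp
  obtain ⟨n, hn⟩ := fam_dense hC0 hr hrC X hκ0
  obtain ⟨hf, hfC⟩ := fam_test (μ := μ) hC0 n
  refine ⟨C, n, X, by exact_mod_cast hX1, fun t H l ht hm l1 l2 l3 => ?_⟩
  have hpt : ∀ x, |r (1 * x) - fam μ C n x| ≤ (κ * (1 + (X : ℝ) ^ 2)) * ker μ x +
      (10 * (C : ℝ) / (X : ℝ) ^ 2) * ker μ (x / X) :=
    pointwise (ker_ge hμ) hX1 hrC hfC (by norm_num) hκ0.le (fun x hx => by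
      rw [one_mul]
      exact hn x hx)
  have hkd := (ker_test hμ).dec
  have hkd2 := (ker_dil hμ hX1).dec
  have hM : |1 * M r - M (fam μ C n)| ≤ (κ * (1 + (X : ℝ) ^ 2)) * M (ker μ) +
      (10 * (C : ℝ) / (X : ℝ) ^ 2) * M (fun x => ker μ (x / X)) := by
    have e1 : M (fun x => r x + (-1) * fam μ C n x) = M r + (-1) * M (fam μ C n) := M_lin hr.dec hf.dec _
    have e2 : M (fun x => (fun x => 0 + (κ * (1 + (X : ℝ) ^ 2)) * ker μ x) x +
        (10 * (C : ℝ) / (X : ℝ) ^ 2) * (fun x => ker μ (x / X)) x) =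
        (κ * (1 + (X : ℝ) ^ 2)) * M (ker μ) + (10 * (C : ℝ) / (X : ℝ) ^ 2) * M (fun x => ker μ (x / X)) := by
      rw [M_lin (Dec.zero.lin hkd _) hkd2, M_lin Dec.zero hkd, M_zero, zero_add]
    have hd1 : Dec (fun x => r x + (-1) * fam μ C n x) := hr.dec.lin hf.dec _
    have hd2 : Dec (fun x => (fun x => 0 + (κ * (1 + (X : ℝ) ^ 2)) * ker μ x) x +
        (10 * (C : ℝ) / (X : ℝ) ^ 2) * (fun x => ker μ (x / X)) x) := (Dec.zero.lin hkd _).lin hkd2 _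
    have hp2 : ∀ x, |r x + (-1) * fam μ C n x| ≤ (κ * (1 + (X : ℝ) ^ 2)) * ker μ x +
        (10 * (C : ℝ) / (X : ℝ) ^ 2) * ker μ (x / X) := fun x => by
      have := hpt x
      rw [one_mul] at this
      rw [neg_one_mul, ← sub_eq_add_neg]
      exact this
    rw [one_mul, abs_le]
    constructor
    · have h1 := M_nonneg (f := fun x => (fun x => r x + (-1) * fam μ C n x) x + 1 * (fun x =>
        (fun x => 0 + (κ * (1 + (X : ℝ) ^ 2)) * ker μ x) x +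
        (10 * (C : ℝ) / (X : ℝ) ^ 2) * (fun x => ker μ (x / X)) x) x) (hd1.lin hd2 1) (fun x => by
          have := (abs_le.1 (hp2 x)).1
          simp only [zero_add]
          linarith)
      rw [M_lin hd1 hd2 1, e1, e2] at h1
      linarith
    · have h1 := M_le hd1 hd2 (fun x => by
        have := (abs_le.1 (hp2 x)).2
        simp only [zero_add]
        linarith)
      rw [e1, e2] at h1
      linarith
  have key := law_close hpt (by positivity) (by positivity) ht hm l1 l2 l3 (D := ε) (by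
    have h2 : 0 ≤ κ * (1 + (X : ℝ) ^ 2) := by positivity
    have h3 : 0 ≤ 10 * (C : ℝ) / (X : ℝ) ^ 2 := by positivity
    linarith)
  rw [one_mul] at key
  exact key

end Run7.h527.PC
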